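import Pool.Agent.Y148.BB.Van

/-!
# Systems of motives closed under slicing: definitions
-/

open CategoryTheory AlgebraicGeometry

universe u v w

namespace Pool.Agent.Y148.SL

open Pool.Agent.H914 Pool.Agent.H914.VarClass Pool.Agent.H914.VarClass.Obj Pool.Agent.W492.BB
  Pool.Agent.W550.Corr Pool.Agent.TH133 Pool.Agent.Y148.BB

variable {k : Type u} [Field k] {𝒱 : VarClass k}

/-- A family of pairs of a variety and a self-correspondence, with weights. -/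
abbrev Fam (C : TheoryData.{u, v, 0} 𝒱 ℚ) := ℕ → ∀ T : 𝒱.Obj, C.A (T.prod T) → Prop

variable {C : TheoryData.{u, v, 0} 𝒱 ℚ}

/-- The products of the pairs in `Q`, with the sum of the weights. -/
inductive IsPart (Q : Fam C) : ℕ → (P : 𝒱.Obj) → C.A (P.prod P) → Prop
  | factor (n : ℕ) (T : 𝒱.Obj) (r : C.A (T.prod T)) (hr : Q n T r) : IsPart Q n T r
  | prod (n m : ℕ) (P T : 𝒱.Obj) (p : C.A (P.prod P)) (r : C.A (T.prod T)) (hp : IsPart Q n P p)
      (hr : Q m T r) : IsPart Q (n + m) (P.prod T) (tens C p r)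

/-- The products of the varieties in `Q`. -/
inductive IsProduct (Q : Fam C) : 𝒱.Obj → Prop
  | factor (m : ℕ) (T : 𝒱.Obj) (r : C.A (T.prod T)) (hr : Q m T r) : IsProduct Q T
  | prod (X Y : 𝒱.Obj) (hX : IsProduct Q X) (hY : IsProduct Q Y) : IsProduct Q (X.prod Y)

/-- The pieces of weight `m` of the motive of `X`. -/
inductive IsPiece (C : TheoryData.{u, v, 0} 𝒱 ℚ) (Q : Fam C) :
    ℕ → (X : 𝒱.Obj) → C.A (X.prod X) → Prop
  | zero (X : 𝒱.Obj) (c : ℕ) (v u : C.A X) (hv : C.Deg (X.dim - c) v)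
      (hu : C.Deg c u) : IsPiece C Q (2 * c) X (C.ext v u)
  | part (X : 𝒱.Obj) (n c : ℕ) (P : 𝒱.Obj) (p : C.A (P.prod P)) (hp : IsPart Q n P p)
      (f : C.A (X.prod P)) (g : C.A (P.prod X)) (hf : C.Deg (X.dim - c) f)
      (hg : C.Deg (P.dim + c) g) : IsPiece C Q (n + 2 * c) X (C.comp f (C.comp p g))

/-- The correspondences of degree `b` from `X` to `Z` which factor through twists of products of
pairs in `Q` of weight less than `m`, the weight after the twist being at least `m - 1`. -/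
inductive IsLower (C : TheoryData.{u, v, 0} 𝒱 ℚ) (Q : Fam C) (m b : ℕ) (X Z : 𝒱.Obj) :
    C.A (X.prod Z) → Prop
  | part (n c : ℕ) (P : 𝒱.Obj) (p : C.A (P.prod P)) (hp : IsPart Q n P p) (hn : n < m)
      (hm : m ≤ n + 2 * c + 1) (f : C.A (X.prod P)) (g : C.A (P.prod Z))
      (hf : C.Deg (X.dim - c) f) (hg : C.Deg (P.dim + c + b) g) :
      IsLower C Q m b X Z (C.comp f (C.comp p g))
  | zero (c : ℕ) (hm : m ≤ 2 * c + 1) (v : C.A X) (u : C.A Z) (hv : C.Deg (X.dim - c) v)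
      (hu : C.Deg (c + b) u) : IsLower C Q m b X Z (C.ext v u)

/-- The pair `(T, r)` can be sliced: there are correspondences `s` of degree zero from `T` to
varieties `Z`, and `s'` of degree one from varieties `Z` to `T`, such that all classes on `P × T`
killed by the `s` are sums of images under the `s'`, and such that the compositions of `s` and `s'`
with `r` factor through pairs of lower weight. -/
def HasSlices (C : TheoryData.{u, v, 0} 𝒱 ℚ) (Q : Fam C) (m : ℕ) (T : 𝒱.Obj)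
    (r : C.A (T.prod T)) : Prop :=
  ∃ (S : ∀ Z : 𝒱.Obj, C.A (T.prod Z) → Prop) (S' : ∀ Z : 𝒱.Obj, C.A (Z.prod T) → Prop),
    (∀ (Z : 𝒱.Obj) (s : C.A (T.prod Z)), S Z s →
      C.Deg T.dim s ∧ C.comp r s ∈ Submodule.span ℚ {c | IsLower C Q m 0 T Z c}) ∧
    (∀ (Z : 𝒱.Obj) (s : C.A (Z.prod T)), S' Z s →
      C.Deg (Z.dim + 1) s ∧ C.comp s r ∈ Submodule.span ℚ {c | IsLower C Q m 1 Z T c}) ∧
    ∀ (P : 𝒱.Obj) (j : ℤ) (z : C.A (P.prod T)), C.Deg j z →
      (∀ (Z : 𝒱.Obj) (s : C.A (T.prod Z)), S Z s → C.comp z s = 0) →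
      z ∈ Submodule.span ℚ {c | ∃ (Z : 𝒱.Obj) (s : C.A (Z.prod T)) (w : C.A (P.prod Z)),
        S' Z s ∧ C.Deg (j - 1) w ∧ c = C.comp w s}

variable {K : Type w} [Field K] (H : WeilTheoryData.{u, v, w} C K)

/-- A sliced system of motives. -/
structure IsSystem (Q : Fam C) : Prop where
  pos : ∀ (m : ℕ) (T : 𝒱.Obj) (r : C.A (T.prod T)), Q m T r → 1 ≤ m
  dim_eq : ∀ (m : ℕ) (T : 𝒱.Obj) (r : C.A (T.prod T)), Q m T r → T.dim = m
  deg : ∀ (m : ℕ) (T : 𝒱.Obj) (r : C.A (T.prod T)), Q m T r → C.Deg T.dim r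
  idem : ∀ (m : ℕ) (T : 𝒱.Obj) (r : C.A (T.prod T)), Q m T r → C.comp r r = r
  self_dual : ∀ (m : ℕ) (T : 𝒱.Obj) (r : C.A (T.prod T)), Q m T r → tp C r = r
  ck : ∀ (m : ℕ) (T : 𝒱.Obj) (r : C.A (T.prod T)), Q m T r → ∃ π, IsCK H T π ∧
    (∀ i, C.comp (π i) r = if i = m then r else 0) ∧
    ∀ i, π i ∈ Submodule.span ℚ {R | IsPiece C Q i T R}
  slices : ∀ (m : ℕ) (T : 𝒱.Obj) (r : C.A (T.prod T)), Q m T r → HasSlices C Q m T r

/-- The families of subspaces which are used to start the induction: `t = 0` and the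
homologically trivial classes, or `t = 1` and the kernels of the Abel-Jacobi maps. -/
structure IsBottom (t : ℕ) (B : ∀ X : 𝒱.Obj, ℕ → Submodule ℚ (C.A X)) : Prop where
  le : t ≤ 1
  deg : ∀ (X : 𝒱.Obj) (j : ℕ) (z : C.A X), z ∈ B X j → C.Deg j z ∧ H.cl z = 0
  zero : t = 0 → ∀ (X : 𝒱.Obj) (j : ℕ) (z : C.A X), C.Deg j z → H.cl z = 0 → z ∈ B X j
  stable : ∀ (X Y : 𝒱.Obj) (j i : ℕ) (Γ : C.A (X.prod Y)), C.Deg (X.dim + i - j) Γ →
    ∀ z ∈ B X j, C.act Γ z ∈ B Y i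
  kills : ∀ (X Y : 𝒱.Obj) (j i : ℕ) (Γ : C.A (X.prod Y)), C.Deg (X.dim + i - j) Γ →
    Kills H Γ (2 * j - t) → ∀ z, C.Deg j z → H.cl z = 0 → C.act Γ z ∈ B Y i

/-- The injectivity on the products of weight `2 j - t`. -/
def Inj (Q : Fam C) (t : ℕ) (B : ∀ X : 𝒱.Obj, ℕ → Submodule ℚ (C.A X)) (j : ℕ) : Prop :=
  ∀ (n : ℕ) (P : 𝒱.Obj) (p : C.A (P.prod P)), n + t = 2 * j → IsPart Q n P p →
    ∀ z ∈ B P j, C.act p z = z → z = 0

end Pool.Agent.Y148.SL
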