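import Pool.Agent.Y148.SL.Piece

/-!
# The filtrations attached to Chow-Kunneth decompositions into pieces
-/

open CategoryTheory AlgebraicGeometry

universe u v w

namespace Pool.Agent.Y148.SL

open Pool.Agent.H914 Pool.Agent.H914.VarClass Pool.Agent.H914.VarClass.Obj Pool.Agent.W492.BB
  Pool.Agent.W550.Corr Pool.Agent.TH133
open Pool.Agent.Y148.BB hiding IsPart IsPiece IsPieceCK Van PartVan tens_part_van
  pieces_act_zero tens_mem_span exists_pieceCK

set_option linter.unusedSectionVars false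
set_option linter.unusedVariables false

variable {k : Type u} [Field k] {𝒱 : VarClass k}

section weil

variable {C : TheoryData.{u, v, 0} 𝒱 ℚ} [hC : IsChowProj C] {K : Type w} [Field K]
  {H : WeilTheoryData.{u, v, w} C K} [hH : IsWeilProj H] {X Y Z W T P : 𝒱.Obj} {Q : Fam C}
  {B : ∀ X : 𝒱.Obj, ℕ → Submodule ℚ (C.A X)} {t : ℕ}

variable (H Q) in
/-- The filtration attached to the decompositions into pieces. -/
def pieceF (X : 𝒱.Obj) (j ν : ℕ) : Submodule ℚ (C.A X) :=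
  ckF C (fun X π => IsPieceCK H Q X π) X j ν

include hC hH

lemma pieceF_anti {X : 𝒱.Obj} {j ν : ℕ} : pieceF H Q X j (ν + 1) ≤ pieceF H Q X j ν := by
  rintro z ⟨hz, h⟩
  exact ⟨hz, fun π hπ m hm => h π hπ m (by omega)⟩

lemma mem_gr_of_deg {j i : ℕ} {Γ : C.A (X.prod Y)} (hΓ : C.Deg (X.dim + i - j) Γ) {z : C.A X}
    (hz : z ∈ C.gr X j) : C.act Γ z ∈ C.gr Y i := by
  have h4 : Γ ∈ C.gr (X.prod Y) (X.dim + ((i : ℤ) - j)) := gr_congr (by ring) hΓ
  exact gr_congr (by ring) (act_mem' C h4 hz)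

lemma pieceF_zero (hQ : IsSystem H Q) (hB : IsBottom H t B) (hI : ∀ j, Inj Q t B j)
    {X : 𝒱.Obj} {j : ℕ} {z : C.A X} : z ∈ pieceF H Q X j 0 ↔ C.Deg j z := by
  refine ⟨fun h => h.1, fun h => ⟨h, fun π hπ m hm => ?_⟩⟩
  exact (hπ.van hQ hB (d := j) (fun j _ => hI j) m).lt j z (by omega) (by omega) h

lemma pieceF_one (hQ : IsSystem H Q) (hB : IsBottom H t B) (hI : ∀ j, Inj Q t B j)
    {X : 𝒱.Obj} (hX : ∃ π, IsPieceCK H Q X π) {j : ℕ} {z : C.A X} :
    z ∈ pieceF H Q X j 1 ↔ C.Deg j z ∧ H.cl z = 0 := by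
  obtain ⟨π, hπ⟩ := hX
  constructor
  · rintro ⟨h, h'⟩
    refine ⟨h, ?_⟩
    have h1 := h' π hπ (2 * j) (by omega)
    rw [← hπ.ck.act_self (2 * j) (H.cl z) (by exact_mod_cast H.cl_mem h), ← cl_act H,
      h1, map_zero]
  · rintro ⟨h, h'⟩
    refine ⟨h, fun π hπ m hm => ?_⟩
    have hv := hπ.van hQ hB (d := j) (fun j _ => hI j) m
    by_cases h1 : 2 * j < m
    · exact hv.lt j z (by omega) (by omega) h
    · exact hv.eq j z (by omega) (by omega) h h'

lemma pieceF_two (hQ : IsSystem H Q) {N : ∀ X : 𝒱.Obj, ℕ → Submodule ℚ (C.A X)}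
    (hB : IsBottom H 1 N) (hI : ∀ j, Inj Q 1 N j)
    {X : 𝒱.Obj} (hX : ∃ π, IsPieceCK H Q X π) {j : ℕ} : pieceF H Q X j 2 = N X j := by
  obtain ⟨π, hπ⟩ := hX
  apply le_antisymm
  · rintro z ⟨hz, h⟩
    have hcl : H.cl z = 0 := by
      have h1 := h π hπ (2 * j) (by omega)
      rw [← hπ.ck.act_self (2 * j) (H.cl z) (by exact_mod_cast H.cl_mem hz), ← cl_act H, h1,
        map_zero]
    rw [sum_act hπ.ck z]
    apply Submodule.sum_mem
    intro m hm
    by_cases h1 : 2 * j < m + 2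
    · rw [h π hπ m h1]
      exact Submodule.zero_mem _
    · apply hB.kills X X j j (π m) _ _ z hz hcl
      · rw [add_sub_cancel_right]
        exact hπ.ck.deg m
      · intro a ha
        exact hπ.ck.act_ne m _ a (by push_cast; omega) ha
  · intro z hz
    obtain ⟨h, h'⟩ := hB.deg X j z hz
    refine ⟨h, fun π hπ m hm => ?_⟩
    have hv := hπ.van hQ hB (d := j) (fun j _ => hI j) m
    by_cases h1 : 2 * j < m
    · exact hv.lt j z (by omega) (by omega) h
    · by_cases h2 : 2 * j = m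
      · exact hv.eq j z (by omega) (by omega) h h'
      · exact hv.bot j z le_rfl (by omega) hz

lemma pieceF_top (hQ : IsSystem H Q) (hB : IsBottom H t B) (hI : ∀ j, Inj Q t B j)
    {X : 𝒱.Obj} (hX : ∃ π, IsPieceCK H Q X π) {j : ℕ} : pieceF H Q X j (j + 1) = ⊥ := by
  obtain ⟨π, hπ⟩ := hX
  rw [eq_bot_iff]
  rintro z ⟨hz, h⟩
  rw [Submodule.mem_bot, sum_act hπ.ck z]
  apply Finset.sum_eq_zero
  intro m hm
  by_cases h1 : 2 * j < m + (j + 1)
  · exact h π hπ m h1
  · exact (hπ.van hQ hB (d := j) (fun j _ => hI j) m).gt j z (by omega) hz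

lemma pieceF_stable (hQ : IsSystem H Q) (hB : IsBottom H t B) (hI : ∀ j, Inj Q t B j)
    {X Y : 𝒱.Obj} (hX : ∃ π, IsPieceCK H Q X π) {j i ν : ℕ} {Γ : C.A (X.prod Y)}
    (hΓ : C.Deg (X.dim + i - j) Γ) {z : C.A X} (hz : z ∈ pieceF H Q X j ν) :
    C.act Γ z ∈ pieceF H Q Y i ν := by
  obtain ⟨π, hπ⟩ := hX
  obtain ⟨hz, h⟩ := hz
  refine ⟨mem_gr_of_deg (H := H) hΓ hz, fun ρ hρ b hb => ?_⟩
  rw [sum_act hπ.ck z, act_map_sum, act_map_sum]
  apply Finset.sum_eq_zero
  intro a ha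
  by_cases h1 : 2 * j < a + ν
  · rw [h π hπ a h1, TheoryData.act_map_zero, TheoryData.act_map_zero]
  · apply span_act_zero (hπ.mem a) (hρ.mem b)
    intro R hR R' hR'
    exact pieces_act_zero hQ hB (d := i + a) (fun j _ => hI j) hR hR' hΓ hz (by omega)
      (by omega) (Or.inl (by omega))

lemma pieceF_shift (hQ : IsSystem H Q) (hB : IsBottom H t B) (hI : ∀ j, Inj Q t B j)
    {X Y : 𝒱.Obj} (hX : ∃ π, IsPieceCK H Q X π) {j i ν : ℕ} {Γ : C.A (X.prod Y)}
    (hΓ : C.Deg (X.dim + i - j) Γ) (hk : Kills H Γ (2 * j - ν)) {z : C.A X}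
    (hz : z ∈ pieceF H Q X j ν) : C.act Γ z ∈ pieceF H Q Y i (ν + 1) := by
  obtain ⟨π, hπ⟩ := hX
  obtain ⟨hz, h⟩ := hz
  refine ⟨mem_gr_of_deg (H := H) hΓ hz, fun ρ hρ b hb => ?_⟩
  rw [sum_act hπ.ck z, act_map_sum, act_map_sum]
  apply Finset.sum_eq_zero
  intro a ha
  by_cases h1 : 2 * j < a + ν
  · rw [h π hπ a h1, TheoryData.act_map_zero, TheoryData.act_map_zero]
  by_cases h2 : 2 * i + a < 2 * j + b
  · apply span_act_zero (hπ.mem a) (hρ.mem b)
    intro R hR R' hR'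
    exact pieces_act_zero hQ hB (d := i + a) (fun j _ => hI j) hR hR' hΓ hz (by omega)
      (by omega) (Or.inl (by omega))
  · -- the components of the same weight
    set γ := C.comp (C.comp (π a) Γ) (ρ b) with hγ
    have hγm : γ ∈ C.gr (X.prod Y) (X.dim + i - j) := by
      have h4 : Γ ∈ C.gr (X.prod Y) (X.dim + ((i : ℤ) - j)) := gr_congr (by ring) hΓ
      have h5 := comp_mem C (e := 0) (by rw [add_zero]; exact hπ.ck.deg a) h4
      have h6 := comp_mem C (e' := 0) h5 (by rw [add_zero]; exact hρ.ck.deg b)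
      exact gr_congr (by ring) h6
    have hγc : H.cl γ = 0 := by
      apply hom_zero_of_act H
      have h4 : H.actL (H.cl γ) = 0 := by
        apply ext_gr H
        intro m x hx
        rw [TheoryData.actL_apply, hγ, actH_comp H, actH_comp H, LinearMap.zero_apply,
          hπ.ck.actH_eq a m hx]
        split_ifs with hm
        · rw [hk x, TheoryData.act_map_zero]
          have : (2 * (j : ℤ) - (ν : ℤ)) = m := by omega
          rw [this]
          exact hx
        · rw [TheoryData.act_map_zero, TheoryData.act_map_zero]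
      intro x
      exact LinearMap.congr_fun h4 x
    have hγ1 : C.act (ρ b) (C.act Γ (C.act (π a) z)) =
        C.act (ρ b) (C.act γ (C.act (π a) z)) := by
      have e1 : C.act (π a) (C.act (π a) z) = C.act (π a) z := by
        rw [← C.act_comp, hπ.ck.idem]
      have e2 : ∀ y, C.act (ρ b) (C.act (ρ b) y) = C.act (ρ b) y := by
        intro y
        rw [← C.act_comp, hρ.ck.idem]
      rw [hγ, C.act_comp, C.act_comp, e1, e2]
    rw [hγ1]
    apply span_act_zero (hπ.mem a) (hρ.mem b)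
    intro R hR R' hR'
    exact pieces_act_zero hQ hB (d := i + a) (fun j _ => hI j) hR hR' hγm hz (by omega)
      (by omega) (Or.inr ⟨by omega, hγc⟩)

/-- External products. -/
lemma pieceF_ext (hQ : IsSystem H Q) (hB : IsBottom H t B) (hI : ∀ j, Inj Q t B j)
    {X Y : 𝒱.Obj} (hX : ∃ π, IsPieceCK H Q X π) (hY : ∃ π, IsPieceCK H Q Y π)
    {j i ν μ : ℕ} {z : C.A X} {y : C.A Y} (hz : z ∈ pieceF H Q X j ν)
    (hy : y ∈ pieceF H Q Y i μ) : C.ext z y ∈ pieceF H Q (X.prod Y) (j + i) (ν + μ) := by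
  obtain ⟨π, hπ⟩ := hX
  obtain ⟨π', hπ'⟩ := hY
  obtain ⟨hz, h⟩ := hz
  obtain ⟨hy, h'⟩ := hy
  have hzy : C.ext z y ∈ C.gr (X.prod Y) ((j + i : ℕ) : ℤ) :=
    gr_congr (by push_cast; ring) (ext_mem' hz hy)
  refine ⟨hzy, fun ρ hρ b hb => ?_⟩
  have e1 : C.ext z y = ∑ a ∈ Finset.range (2 * X.dim + 1), ∑ a' ∈ Finset.range (2 * Y.dim + 1),
      C.act (tens C (π a) (π' a')) (C.ext z y) := by
    conv_lhs => rw [sum_act hπ.ck z, sum_act hπ'.ck y]
    simp only [act_tens_ext C _ _ (fun f c => ch_comm C _ _)]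
    simp only [TheoryData.ext, map_sum, Finset.sum_mul_sum]
  rw [e1, act_map_sum]
  apply Finset.sum_eq_zero
  intro a ha
  rw [act_map_sum]
  apply Finset.sum_eq_zero
  intro a' ha'
  by_cases h1 : 2 * j < a + ν
  · rw [act_tens_ext C _ _ (fun f c => ch_comm C _ _), h π hπ a h1, TheoryData.ext_zero_left,
      TheoryData.act_map_zero]
  by_cases h2 : 2 * i < a' + μ
  · rw [act_tens_ext C _ _ (fun f c => ch_comm C _ _), h' π' hπ' a' h2,
      TheoryData.ext_zero_right, TheoryData.act_map_zero]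
  have h3 : C.act (ρ b) (C.act (dg C (X.prod Y)) (C.act (tens C (π a) (π' a')) (C.ext z y))) =
      0 := by
    apply span_act_zero (tens_mem_span hQ (hπ.mem a) (hπ'.mem a')) (hρ.mem b)
    intro R hR R' hR'
    exact pieces_act_zero hQ hB (d := j + i + a + a') (fun j _ => hI j) hR hR'
      (i := ((j + i : ℕ) : ℤ)) (j := ((j + i : ℕ) : ℤ))
      (gr_congr (by ring) (dg_mem C _)) hzy (by push_cast; omega) (by push_cast; omega)
      (Or.inl (by push_cast; omega))
  rwa [act_dg] at h3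

end weil

end Pool.Agent.Y148.SL
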