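import Pool.Agent.Y148.SL.Defs

/-!
# Curves and surfaces form a sliced system
-/

open CategoryTheory AlgebraicGeometry

universe u v w

namespace Pool.Agent.Y148.SL

open Pool.Agent.H914 Pool.Agent.H914.VarClass Pool.Agent.H914.VarClass.Obj Pool.Agent.W492.BB
  Pool.Agent.W550.Corr Pool.Agent.TH133
open Pool.Agent.Y148.BB hiding IsPart PartVan

set_option linter.unusedSectionVars false
set_option linter.unusedVariables false

variable {k : Type u} [Field k] {𝒱 : VarClass k}

section weil

variable {C : TheoryData.{u, v, 0} 𝒱 ℚ} [hC : IsChowProj C] {K : Type w} [Field K]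
  {H : WeilTheoryData.{u, v, w} C K} [hH : IsWeilProj H] {X Y Z W T P S : 𝒱.Obj}
  {Q : ∀ S : 𝒱.Obj, C.A (S.prod S) → Prop}

/-- The family of curves and surfaces. -/
def csFam (Q : ∀ S : 𝒱.Obj, C.A (S.prod S) → Prop) : Fam C := fun m T r => BB.IsFactor Q m T r

include hC hH

lemma piece_of_factor {m : ℕ} {r : C.A (T.prod T)} (h : csFam Q m T r) :
    IsPiece C (csFam Q) m T r := by
  have h1 := IsPiece.part (C := C) (Q := csFam Q) T m 0 T r (IsPart.factor m T r h) (dg C T)
    (dg C T) (gr_congr (by push_cast; ring) (dg_mem C T)) (gr_congr (by push_cast; ring) (dg_mem C T))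
  rwa [comp_dg, dg_comp] at h1

lemma factor_odd {o : C.A T} (hT : T.dim = 1) (ho : C.Deg 1 o) (hd : HasDegree C o 1) :
    csFam Q 1 T (oddProj C o) := BB.IsFactor.curve T o hT ho hd

lemma cs_ck (hQ : AllTranscendental H Q) {m : ℕ} {r : C.A (T.prod T)} (h : csFam Q m T r) :
    ∃ π, IsCK H T π ∧ (∀ i, C.comp (π i) r = if i = m then r else 0) ∧
      ∀ i, π i ∈ Submodule.span ℚ {R | IsPiece C (csFam Q) i T R} := by
  cases h with
  | curve _ o hT ho hd =>
    refine ⟨curveCK C o, curveCK_isCK H hT ho hd, fun i => ?_, fun i => ?_⟩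
    · have h1 := curveCK_comp hT ho hd i 1
      have e : curveCK C o 1 = oddProj C o := rfl
      rw [e] at h1
      rw [h1]
      split_ifs with hm
      · rw [hm]; rfl
      · rfl
    · match i with
      | 0 =>
        apply Submodule.subset_span
        have h1 := IsPiece.zero (C := C) (Q := csFam Q) T 0 o 1 (gr_congr (by rw [hT]; norm_num) ho)
          (gr_congr (by norm_num) (C.one_mem T))
        exact h1
      | 1 => exact Submodule.subset_span (piece_of_factor (H := H) (factor_odd (H := H) hT ho hd))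
      | 2 =>
        apply Submodule.subset_span
        have h1 := IsPiece.zero (C := C) (Q := csFam Q) T 1 1 o
          (gr_congr (by rw [hT]; norm_num) (C.one_mem T)) (gr_congr (by norm_num) ho)
        exact h1
      | (i + 3) => exact Submodule.zero_mem _
  | surface _ _ hq =>
    obtain ⟨x, π, hx, hxd, -, hπ, hπ0, hπ4, h2, h22, h1, h3⟩ := (hQ _ _ hq).exists_ck
    have hS := (hQ _ _ hq).dim_eq
    refine ⟨π, hπ, IsTranscendental.comp_ck hπ h2, fun i => ?_⟩
    match i with
    | 0 =>
      rw [hπ0]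
      apply Submodule.subset_span
      have h1 := IsPiece.zero (C := C) (Q := csFam Q) T 0 x 1 (gr_congr (by rw [hS]; norm_num) hx)
        (gr_congr (by norm_num) (C.one_mem T))
      exact h1
    | 1 =>
      apply Submodule.span_mono _ h1
      rintro c ⟨T', o, f, g, hT, ho, hd, hf, hg, rfl⟩
      exact IsPiece.part (C := C) (Q := csFam Q) T 1 0 T' (oddProj C o)
        (IsPart.factor 1 T' _ (factor_odd (H := H) hT ho hd)) f g
        (gr_congr (by rw [hS]; norm_num) hf) (gr_congr (by rw [hT]; norm_num) hg)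
    | 2 =>
      rw [← sub_add_cancel (π 2) r]
      apply Submodule.add_mem
      · apply Submodule.span_mono _ h22
        rintro c ⟨D, D', hD, hD', rfl⟩
        have h1 := IsPiece.zero (C := C) (Q := csFam Q) T 1 D D'
          (gr_congr (by rw [hS]; norm_num) hD) (gr_congr (by norm_num) hD')
        exact h1
      · exact Submodule.subset_span (piece_of_factor (H := H) (BB.IsFactor.surface T r hq))
    | 3 =>
      apply Submodule.span_mono _ h3
      rintro c ⟨T', o, f, g, hT, ho, hd, hf, hg, rfl⟩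
      exact IsPiece.part (C := C) (Q := csFam Q) T 1 1 T' (oddProj C o)
        (IsPart.factor 1 T' _ (factor_odd (H := H) hT ho hd)) f g
        (gr_congr (by rw [hS]; norm_num) hf) (gr_congr (by rw [hT]; norm_num) hg)
    | 4 =>
      rw [hπ4]
      apply Submodule.subset_span
      have h1 := IsPiece.zero (C := C) (Q := csFam Q) T 2 1 x
        (gr_congr (by rw [hS]; norm_num) (C.one_mem T)) (gr_congr (by norm_num) hx)
      exact h1
    | (i + 5) =>
      rw [hπ.out (i + 5) (by rw [hS]; omega)]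
      exact Submodule.zero_mem _

/-- The slices of a curve. -/
lemma cs_slices_curve (hF : BB.FibreProperty C) {o : C.A T} (hT : T.dim = 1) (ho : C.Deg 1 o)
    (hd : HasDegree C o 1) : HasSlices C (csFam Q) 1 T (oddProj C o) := by
  refine ⟨fun Z s => ∃ t : C.A T, C.Deg 1 t ∧ s = C.ext t 1,
    fun Z s => ∃ (v : C.A Z) (t : C.A T), C.Deg Z.dim v ∧ C.Deg 1 t ∧ s = C.ext v t,
    ?_, ?_, ?_⟩
  · rintro Z s ⟨t, ht, rfl⟩
    refine ⟨gr_congr (by rw [hT]; norm_num) (ext_mem' ht (C.one_mem Z)), ?_⟩
    apply Submodule.subset_span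
    rw [comp_ext, tp_odd]
    exact IsLower.zero 0 (by norm_num) _ _
      (gr_congr (by rw [hT]; norm_num) (act_mem0 C (odd_mem hT ho) ht))
      (gr_congr (by norm_num) (C.one_mem Z))
  · rintro Z s ⟨v, t, hv, ht, rfl⟩
    refine ⟨ext_mem' hv ht, ?_⟩
    apply Submodule.subset_span
    rw [ext_comp]
    exact IsLower.zero 0 (by norm_num) _ _ (gr_congr (by norm_num) hv)
      (gr_congr (by norm_num) (act_mem0 C (odd_mem hT ho) ht))
  · intro P j z hz h
    have h1 := hF P T j z hT hz (fun t ht => by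
      have e1 : C.down (fst P T) (C.mul z (C.up (snd P T) t)) = C.act (tp C z) t :=
        (act_tp C z t).symm
      have h2 := h T (C.ext t 1) ⟨t, ht, rfl⟩
      rw [comp_ext] at h2
      have h3 : C.act (C.ext (1 : C.A T) (C.act (tp C z) t)) o = C.act (tp C z) t := by
        rw [act_ext' (q := 1) (by rwa [one_mul]), one_smul]
      have h4 : C.ext (1 : C.A T) (C.act (tp C z) t) = 0 := by
        rw [← tp_ext, h2, tp_zero]
      rw [e1, ← h3, h4, TheoryData.act_zero])
    apply Submodule.span_mono _ h1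
    rintro c ⟨x, t, hx, ht, rfl⟩
    refine ⟨T, C.ext o t, C.ext x 1, ⟨o, t, gr_congr (by rw [hT]; norm_num) ho, ht, rfl⟩,
      gr_congr (by ring) (ext_mem' hx (C.one_mem T)), ?_⟩
    rw [ext_comp, act_ext' (q := 1) (by rwa [mul_one]), one_smul]

/-- The slices of a surface. -/
lemma cs_slices_surface (hQ : AllTranscendental H Q) {q : C.A (S.prod S)} (hq : Q S q) :
    HasSlices C (csFam Q) 2 S q := by
  have hS := hQ S q hq
  obtain ⟨x, π, hx, hxd, hpen, hπ, hπ0, hπ4, h2, -⟩ := hS.exists_ck
  have hqx : C.act q x = 0 := by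
    have e1 : C.act (π 4) x = x := by
      rw [hπ4, act_ext' (q := 1) (by rwa [one_mul]), one_smul]
    rw [← e1, ← C.act_comp, IsTranscendental.comp_ck hπ h2, if_neg (by norm_num),
      TheoryData.act_zero]
  have hdiv : ∀ {Z : 𝒱.Obj} (i : Z ⟶ S), Z.dim = 1 → C.push i 1 ∈ C.gr S 1 := by
    intro Z i hZ
    have := C.push_mem i (C.one_mem Z)
    exact gr_congr (by rw [hZ, hS.dim_eq]; norm_num) this
  have hqm : q ∈ C.gr (S.prod S) (S.dim + 0) := gr_congr (by rw [hS.dim_eq]; norm_num) hS.deg
  refine ⟨fun Z s => Z.dim = 1 ∧ ∃ (i : Z ⟶ S) (o : C.A Z), C.Deg 1 o ∧ HasDegree C o 1 ∧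
    C.push i o = x ∧ s = tp C (C.graph i), fun Z s => Z.dim = 1 ∧ ∃ i : Z ⟶ S, s = C.graph i,
    ?_, ?_, ?_⟩
  · rintro Z s ⟨hZ, i, o, ho, hd, hio, rfl⟩
    have hs : tp C (C.graph i) ∈ C.gr (S.prod Z) (S.dim + 0) :=
      gr_congr (by ring) (tp_mem C (wg_mem i (C.one_mem Z)))
    refine ⟨gr_congr (by ring) hs, ?_⟩
    apply Submodule.subset_span
    have e0 : C.comp (C.comp q (tp C (C.graph i))) (C.ext o (1 : C.A Z)) = 0 := by
      rw [comp_ext, tp_comp C (ch_comm C), tp_tp, C.act_comp, C.act_graph, hio, hS.self_dual, hqx,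
        TheoryData.ext_zero_left]
    have e2 : C.comp (C.comp q (tp C (C.graph i))) (C.ext (1 : C.A Z) o) = 0 := by
      rw [comp_ext, tp_comp C (ch_comm C), tp_tp, C.act_comp, C.act_graph, hS.self_dual,
        hS.divisor _ (hdiv i hZ), TheoryData.ext_zero_left]
    have e : C.comp q (tp C (C.graph i)) = C.comp (C.comp q (tp C (C.graph i)))
        (C.comp (oddProj C o) (dg C Z)) := by
      conv_lhs => rw [← comp_dg C (C.comp q (tp C (C.graph i))), curve_sum o, comp_add, comp_add,
        e0, e2, zero_add, add_zero]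
      rw [comp_dg]
    rw [e]
    exact IsLower.part 1 0 Z _ (IsPart.factor 1 Z _ (factor_odd (H := H) hZ ho hd)) (by norm_num)
      (by norm_num) _ _ (gr_congr (by push_cast; ring) (comp_mem C hqm hs))
      (gr_congr (by push_cast; ring) (dg_mem C Z))
  · rintro Z s ⟨hZ, i, rfl⟩
    have hs : C.graph i ∈ C.gr (Z.prod S) (Z.dim + 1) :=
      gr_congr (by rw [hZ, hS.dim_eq]; norm_num) (wg_mem i (C.one_mem Z))
    refine ⟨hs, ?_⟩
    obtain ⟨o, ho, ho1, ho2⟩ := W492.BB.exists_deg_one C Z
    have hd : HasDegree C o 1 := by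
      intro Y
      rw [one_smul]
      exact ⟨ho2 Y, ho1 Y⟩
    rw [hZ] at ho
    have ho : C.Deg 1 o := by exact_mod_cast ho
    have hsq : C.comp (C.graph i) q ∈ C.gr (Z.prod S) (Z.dim + (1 + 0)) := comp_mem C hs hqm
    have hqo : C.act q (C.push i o) ∈ C.gr S 2 := by
      have h3 : C.push i o ∈ C.gr S 2 := by
        have := C.push_mem i ho
        exact gr_congr (by rw [hZ, hS.dim_eq]; norm_num) this
      exact gr_congr (by ring) (act_mem' C hqm h3)
    have e0 : C.comp (C.ext o (1 : C.A Z)) (C.comp (C.graph i) q) = 0 := by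
      rw [ext_comp, C.act_comp, C.act_graph, hS.divisor _ (hdiv i hZ), TheoryData.ext_zero_right]
    have e2 : C.comp (C.ext (1 : C.A Z) o) (C.comp (C.graph i) q) =
        C.ext (1 : C.A Z) (C.act q (C.push i o)) := by
      rw [ext_comp, C.act_comp, C.act_graph]
    have e : C.comp (C.graph i) q = C.comp (dg C Z) (C.comp (oddProj C o)
        (C.comp (C.graph i) q)) + C.ext (1 : C.A Z) (C.act q (C.push i o)) := by
      conv_lhs => rw [← dg_comp C (C.comp (C.graph i) q), curve_sum o, add_comp, add_comp,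
        e0, e2, zero_add]
      rw [dg_comp]
    rw [e]
    apply Submodule.add_mem
    · apply Submodule.subset_span
      exact IsLower.part 1 0 Z _ (IsPart.factor 1 Z _ (factor_odd (H := H) hZ ho hd))
        (by norm_num) (by norm_num) _ _ (gr_congr (by push_cast; ring) (dg_mem C Z))
        (gr_congr (by push_cast; ring) hsq)
    · apply Submodule.subset_span
      exact IsLower.zero 1 (by norm_num) _ _
        (gr_congr (by rw [hZ]; norm_num) (C.one_mem Z)) (gr_congr (by norm_num) hqo)
  · intro P j z hz h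
    have h1 := hpen P j z hz (fun Z i o hZ ho hd hio => by
      have h3 := h Z (tp C (C.graph i)) ⟨hZ, i, o, ho, hd, hio, rfl⟩
      rw [← pull_eq_comp] at h3
      exact h3)
    apply Submodule.span_mono _ h1
    rintro c ⟨Z, i, w, hZ, hw, rfl⟩
    exact ⟨Z, C.graph i, w, ⟨hZ, i, rfl⟩, hw, (comp_graph i w).symm⟩

/-- **Curves and surfaces form a sliced system.** -/
theorem isSystem_cs (hF : BB.FibreProperty C) (hQ : AllTranscendental H Q) :
    IsSystem H (csFam Q) where
  pos m T r h := by
    cases h <;> omega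
  dim_eq m T r h := h.dim_eq hQ
  deg m T r h := h.mem hQ
  idem m T r h := h.idem hQ
  self_dual m T r h := h.tp_eq hQ
  ck m T r h := cs_ck hQ h
  slices m T r h := by
    cases h with
    | curve _ o hT ho hd => exact cs_slices_curve (H := H) hF hT ho hd
    | surface _ _ hq => exact cs_slices_surface hQ hq

end weil

end Pool.Agent.Y148.SL
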