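import Pool.Agent.Y148.SL.Fil
import Pool.Agent.Y148.BB.Main

/-!
# Multiplicative Bloch-Beilinson filtrations, and Bloch-Beilinson filtrations with Abel-Jacobi kernels
-/

open CategoryTheory AlgebraicGeometry

universe u v w

namespace Pool.Agent.Y148.SL

open Pool.Agent.H914 Pool.Agent.H914.VarClass Pool.Agent.H914.VarClass.Obj Pool.Agent.W492.BB
  Pool.Agent.W550.Corr Pool.Agent.TH133
open Pool.Agent.Y148.BB hiding IsPart IsPiece IsPieceCK Van PartVan tens_part_van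
  pieces_act_zero tens_mem_span exists_pieceCK

set_option linter.unusedSectionVars false
set_option linter.unusedVariables false

variable {k : Type u} [Field k] {𝒱 : VarClass k}

section weil

variable {C : TheoryData.{u, v, 0} 𝒱 ℚ} {K : Type w} [Field K]
  (H : WeilTheoryData.{u, v, w} C K)

/-- The homologically trivial classes. -/
def homB (X : 𝒱.Obj) (j : ℕ) : Submodule ℚ (C.A X) where
  carrier := {z | z ∈ C.gr X j ∧ H.cl z = 0}
  add_mem' := fun {a b} ha hb => ⟨Submodule.add_mem _ ha.1 hb.1, by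
    rw [map_add, ha.2, hb.2, add_zero]⟩
  zero_mem' := ⟨Submodule.zero_mem _, map_zero _⟩
  smul_mem' := fun q a ha => ⟨Submodule.smul_mem _ q ha.1, by
    rw [Algebra.smul_def, map_mul, ha.2, mul_zero]⟩

/-- A Bloch-Beilinson filtration (properties 1-5) on the Chow groups of the varieties in `S`. -/
structure IsMult (S : 𝒱.Obj → Prop) (F : ∀ X : 𝒱.Obj, ℕ → ℕ → Submodule ℚ (C.A X)) : Prop where
  anti : ∀ X, S X → ∀ j ν : ℕ, F X j (ν + 1) ≤ F X j ν
  zero : ∀ X, S X → ∀ (j : ℕ) (z : C.A X), z ∈ F X j 0 ↔ C.Deg j z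
  one : ∀ X, S X → ∀ (j : ℕ) (z : C.A X), z ∈ F X j 1 ↔ C.Deg j z ∧ H.cl z = 0
  top : ∀ X, S X → ∀ j : ℕ, F X j (j + 1) = ⊥
  mul : ∀ X, S X → ∀ (j i ν μ : ℕ), ∀ z ∈ F X j ν, ∀ y ∈ F X i μ,
    C.mul z y ∈ F X (j + i) (ν + μ)
  pull : ∀ X Y, S X → S Y → ∀ (f : X ⟶ Y) (j ν : ℕ), ∀ z ∈ F Y j ν, C.up f z ∈ F X j ν
  push : ∀ X Y, S X → S Y → ∀ (f : X ⟶ Y) (j i ν : ℕ), j + Y.dim = i + X.dim →
    ∀ z ∈ F X j ν, C.down f z ∈ F Y i ν
  motivic : ∀ X, S X → ∀ (j ν : ℕ) (Γ : C.A (X.prod X)), C.Deg X.dim Γ →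
    Kills H Γ (2 * j - ν) → ∀ z ∈ F X j ν, C.act Γ z ∈ F X j (ν + 1)

variable {H} [hC : IsChowProj C] [hH : IsWeilProj H] {X Y Z W T P : 𝒱.Obj} {Q : Fam C}
  {B : ∀ X : 𝒱.Obj, ℕ → Submodule ℚ (C.A X)} {t : ℕ}

include hC hH

lemma isBottom_homB : IsBottom H 0 (homB H) where
  le := by norm_num
  deg X j z hz := hz
  zero _ X j z hz h := ⟨hz, h⟩
  stable X Y j i Γ hΓ z hz := ⟨mem_gr_of_deg (H := H) hΓ hz.1, act_hom hz.2⟩
  kills X Y j i Γ hΓ hk z hz h := ⟨mem_gr_of_deg (H := H) hΓ hz, act_hom h⟩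

lemma isBottom_aj {N : ∀ X : 𝒱.Obj, ℕ → Submodule ℚ (C.A X)} (hN : IsAbelJacobiKernel H N) :
    IsBottom H 1 N where
  le := le_rfl
  deg := hN.deg
  zero h := absurd h (by norm_num)
  stable := hN.stable
  kills X Y j i Γ hΓ hk := hN.kills X Y j i Γ hΓ (by exact_mod_cast hk)

variable (H Q) in
omit hC hH in
/-- The extension of the filtration to the direct summands of products. -/
def sumF (X : 𝒱.Obj) (j ν : ℕ) : Submodule ℚ (C.A X) :=
  extF C (fun _ => True) (IsProduct Q) (pieceF H Q) X j ν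

lemma sumF_zero (hQ : IsSystem H Q) (hB : IsBottom H t B) (hI : ∀ j, Inj Q t B j) {j : ℕ}
    {z : C.A X} : z ∈ sumF H Q X j 0 ↔ C.Deg j z := by
  refine ⟨fun h => h.1, fun h => ⟨h, fun P i f hP _ hf => ?_⟩⟩
  rw [pieceF_zero hQ hB hI]
  exact mem_gr_of_deg (H := H) hf h

lemma sumF_stable {j i ν : ℕ} {Γ : C.A (X.prod Y)} (hΓ : C.Deg (X.dim + i - j) Γ) {z : C.A X}
    (hz : z ∈ sumF H Q X j ν) : C.act Γ z ∈ sumF H Q Y i ν := by
  obtain ⟨hz, h⟩ := hz
  have hΓ' : Γ ∈ C.gr (X.prod Y) (X.dim + ((i : ℤ) - j)) := gr_congr (by ring) hΓ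
  refine ⟨mem_gr_of_deg (H := H) hΓ hz, fun P l f hP _ hf => ?_⟩
  rw [← C.act_comp]
  apply h P l _ hP trivial
  have hf' : f ∈ C.gr (Y.prod P) (Y.dim + ((l : ℤ) - i)) := gr_congr (by ring) hf
  exact gr_congr (by ring) (comp_mem C hΓ' hf')

lemma sumF_shift (hQ : IsSystem H Q) (hB : IsBottom H t B) (hI : ∀ j, Inj Q t B j)
    (hX : SummandOf C (IsProduct Q) X) {j i ν : ℕ} {Γ : C.A (X.prod Y)}
    (hΓ : C.Deg (X.dim + i - j) Γ) (hk : Kills H Γ (2 * j - ν)) {z : C.A X}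
    (hz : z ∈ sumF H Q X j ν) : C.act Γ z ∈ sumF H Q Y i (ν + 1) := by
  obtain ⟨P₀, hP₀, f₀, g₀, hf₀, hg₀, hfg⟩ := hX
  obtain ⟨hz, h⟩ := hz
  have hΓ' : Γ ∈ C.gr (X.prod Y) (X.dim + ((i : ℤ) - j)) := gr_congr (by ring) hΓ
  refine ⟨mem_gr_of_deg (H := H) hΓ hz, fun P l f hP _ hf => ?_⟩
  have hf' : f ∈ C.gr (Y.prod P) (Y.dim + ((l : ℤ) - i)) := gr_congr (by ring) hf
  have h1 := h P₀ j f₀ hP₀ trivial (gr_congr (by ring) hf₀)
  have h2 : z = C.act g₀ (C.act f₀ z) := by rw [← C.act_comp, hfg, act_dg]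
  rw [h2, ← C.act_comp, ← C.act_comp]
  apply pieceF_shift hQ hB hI (exists_pieceCK hQ hP₀) _ _ h1
  · have h3 := comp_mem C (e := 0) (by rw [add_zero]; exact hg₀) (comp_mem C hΓ' hf')
    exact gr_congr (by ring) h3
  · intro a ha
    rw [actH_comp H, actH_comp H]
    have h3 : H.act (H.cl g₀) a ∈ H.gr X (2 * j - ν) := by
      have h4 := actH_mem H (e := 0) (by rw [add_zero]; exact hg₀) ha
      rwa [mul_zero, add_zero] at h4
    rw [hk _ h3, TheoryData.act_map_zero]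

lemma sumF_of_product (hQ : IsSystem H Q) (hB : IsBottom H t B) (hI : ∀ j, Inj Q t B j)
    (hP : IsProduct Q P) {j ν : ℕ} {z : C.A P} : z ∈ sumF H Q P j ν ↔ z ∈ pieceF H Q P j ν := by
  constructor
  · rintro ⟨hz, h⟩
    have h1 := h P j (dg C P) hP trivial (gr_congr (by ring) (dg_mem C P))
    rwa [act_dg] at h1
  · intro h
    exact ⟨h.1, fun P' i f hP' _ hf =>
      pieceF_stable hQ hB hI (exists_pieceCK hQ hP) hf h⟩

/-- Products of classes. -/
lemma sumF_mul (hQ : IsSystem H Q) (hB : IsBottom H t B) (hI : ∀ j, Inj Q t B j)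
    (hX : SummandOf C (IsProduct Q) X) {j i ν μ : ℕ} {z y : C.A X}
    (hz : z ∈ sumF H Q X j ν) (hy : y ∈ sumF H Q X i μ) : z * y ∈ sumF H Q X (j + i) (ν + μ) := by
  obtain ⟨P, hP, f, g, hf, hg, hfg⟩ := hX
  have hz1 := hz.2 P j f hP trivial (gr_congr (by ring) hf)
  have hy1 := hy.2 P i f hP trivial (gr_congr (by ring) hf)
  have h1 := pieceF_ext hQ hB hI (exists_pieceCK hQ hP) (exists_pieceCK hQ hP) hz1 hy1
  rw [← sumF_of_product hQ hB hI (IsProduct.prod P P hP hP)] at h1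
  have ez : C.act g (C.act f z) = z := by rw [← C.act_comp, hfg, act_dg]
  have ey : C.act g (C.act f y) = y := by rw [← C.act_comp, hfg, act_dg]
  have h2 : C.act (tens C g g) (C.ext (C.act f z) (C.act f y)) = C.ext z y := by
    rw [act_tens_ext C _ _ (fun f c => ch_comm C _ _), ez, ey]
  have h3 : C.act (C.cograph (Obj.lift (𝟙 X) (𝟙 X))) (C.ext z y) = z * y := by
    rw [C.act_cograph, TheoryData.ext, map_mul, ← C.pull_comp, ← C.pull_comp, lift_fst, lift_snd,
      C.pull_id, C.pull_id]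
  have h4 : C.Deg (((P.prod P).dim : ℤ) + ((j + i : ℕ) : ℤ) - ((j + i : ℕ) : ℤ))
      (tens C g g) := by
    exact gr_congr (by rw [dim_prod]; push_cast; ring) (tens_mem C hg hg)
  have h6 : C.Deg (((X.prod X).dim : ℤ) + ((j + i : ℕ) : ℤ) - ((j + i : ℕ) : ℤ))
      (C.cograph (Obj.lift (𝟙 X) (𝟙 X))) :=
    gr_congr (by ring) (cograph_mem (Obj.lift (𝟙 X) (𝟙 X)))
  rw [← h3, ← h2]
  exact sumF_stable h6 (sumF_stable h4 h1)

lemma sumF_one (hQ : IsSystem H Q) (hB : IsBottom H t B) (hI : ∀ j, Inj Q t B j)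
    (hX : SummandOf C (IsProduct Q) X) {j : ℕ} {z : C.A X} :
    z ∈ sumF H Q X j 1 ↔ C.Deg j z ∧ H.cl z = 0 := by
  obtain ⟨P, hP, f, g, hf, hg, hfg⟩ := hX
  constructor
  · rintro ⟨hz, h⟩
    refine ⟨hz, ?_⟩
    have h1 := h P j f hP trivial (gr_congr (by ring) hf)
    rw [pieceF_one hQ hB hI (exists_pieceCK hQ hP)] at h1
    have h2 : z = C.act g (C.act f z) := by rw [← C.act_comp, hfg, act_dg]
    rw [h2]
    exact act_hom h1.2
  · rintro ⟨hz, h⟩
    refine ⟨hz, fun P i f hP hi hf => ?_⟩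
    rw [pieceF_one hQ hB hI (exists_pieceCK hQ hP)]
    exact ⟨mem_gr_of_deg (H := H) hf hz, act_hom h⟩

lemma sumF_top (hQ : IsSystem H Q) (hB : IsBottom H t B) (hI : ∀ j, Inj Q t B j)
    (hX : SummandOf C (IsProduct Q) X) {j : ℕ} : sumF H Q X j (j + 1) = ⊥ := by
  obtain ⟨P, hP, f, g, hf, hg, hfg⟩ := hX
  rw [eq_bot_iff]
  rintro z ⟨hz, h⟩
  have h1 := h P j f hP trivial (gr_congr (by ring) hf)
  rw [pieceF_top hQ hB hI (exists_pieceCK hQ hP), Submodule.mem_bot] at h1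
  rw [Submodule.mem_bot]
  have h2 : z = C.act g (C.act f z) := by rw [← C.act_comp, hfg, act_dg]
  rw [h2, h1, TheoryData.act_map_zero]

/-- **Existence of the multiplicative filtration.** -/
theorem isMult_sumF (hQ : IsSystem H Q) (hB : IsBottom H t B) (hI : ∀ j, Inj Q t B j) :
    IsMult H (SummandOf C (IsProduct Q)) (sumF H Q) where
  anti X _ j ν := fun z hz => ⟨hz.1, fun P i f hP hi hf => pieceF_anti (hz.2 P i f hP hi hf)⟩
  zero X _ j z := sumF_zero hQ hB hI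
  one X hX j z := sumF_one hQ hB hI hX
  top X hX j := sumF_top hQ hB hI hX
  mul X hX j i ν μ z hz y hy := sumF_mul hQ hB hI hX hz hy
  pull X Y _ _ f j ν z hz := by
    have h1 : C.act (C.cograph f) z ∈ sumF H Q X j ν := by
      apply sumF_stable _ hz
      exact gr_congr (by ring) (cograph_mem f)
    rwa [C.act_cograph] at h1
  push X Y _ _ f j i ν h z hz := by
    have h1 : C.act (C.graph f) z ∈ sumF H Q Y i ν := by
      apply sumF_stable _ hz
      rw [graph_eq_wg]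
      exact gr_congr (by omega) (wg_mem f (C.one_mem X))
    rwa [C.act_graph] at h1
  motivic X hX j ν Γ hΓ hk z hz := sumF_shift hQ hB hI hX (gr_congr (by ring) hΓ) hk hz

/-- A Bloch-Beilinson filtration forces (D) for the products. -/
theorem IsMult.inj (hQ : IsSystem H Q) {S : 𝒱.Obj → Prop} (hS : ∀ X, IsProduct Q X → S X)
    {F : ∀ X : 𝒱.Obj, ℕ → ℕ → Submodule ℚ (C.A X)} (hF : IsMult H S F) (j : ℕ) :
    Inj Q 0 (homB H) j := by
  intro n P p hn hp z hz hpz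
  have hP : S P := hS P hp.isProduct
  have key : ∀ ν : ℕ, z ∈ F P j (ν + 1) := by
    intro ν
    induction ν with
    | zero =>
      rw [hF.one P hP j]
      exact hz
    | succ ν ih =>
      have h1 := hF.motivic P hP j (ν + 1) p (hp.mem hQ) (hp.kills hQ (by push_cast; omega)) z ih
      rw [hpz] at h1
      exact h1
  have h1 := key j
  rw [hF.top P hP j, Submodule.mem_bot] at h1
  exact h1

/-- **Multiplicative Bloch-Beilinson filtrations and (D).** -/
theorem mult_iff (hQ : IsSystem H Q) :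
    (∃ F, IsMult H (SummandOf C (IsProduct Q)) F) ↔ ∀ j, Inj Q 0 (homB H) j := by
  constructor
  · rintro ⟨F, hF⟩ j
    exact hF.inj hQ (fun X hX => SummandOf.self (H := H) hX) j
  · intro h
    exact ⟨_, isMult_sumF hQ isBottom_homB h⟩

/-- **Bloch-Beilinson filtrations with Abel-Jacobi kernels.** -/
theorem aj_iff (hQ : IsSystem H Q) {N : ∀ X : 𝒱.Obj, ℕ → Submodule ℚ (C.A X)}
    (hN : IsAbelJacobiKernel H N) :
    (∃ F, IsBBIn H (fun _ => True) N (SummandOf C (IsProduct Q)) F) ↔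
      ∀ j, 2 ≤ j → Inj Q 1 N j := by
  have hB := isBottom_aj hN
  constructor
  · rintro ⟨F, hF⟩ j hj n P p hn hp z hz hpz
    have hP : SummandOf C (IsProduct Q) P := SummandOf.self (H := H) hp.isProduct
    have key : ∀ ν : ℕ, z ∈ F P j (ν + 2) := by
      intro ν
      induction ν with
      | zero =>
        rw [hF.two P hP j trivial]
        exact hz
      | succ ν ih =>
        have h1 := hF.shift P P hP hP j j trivial trivial (ν + 2) p
          (gr_congr (by ring) (hp.mem hQ)) (hp.kills hQ (by push_cast; omega)) z ih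
        rw [hpz] at h1
        exact h1
    have h1 := key (j - 1)
    have e : j - 1 + 2 = j + 1 := by omega
    rw [e, hF.top P hP j trivial, Submodule.mem_bot] at h1
    exact h1
  · intro h
    have hI : ∀ j, Inj Q 1 N j := by
      intro j
      rcases lt_or_ge j 2 with h2 | h2
      · intro n P p hn hp z hz hpz
        have h1 := hp.pos hQ
        obtain rfl : j = 1 := by omega
        exact hN.abel P z hz
      · exact h j h2
    refine ⟨sumF H Q, ⟨fun X _ j _ ν => fun z hz =>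
      ⟨hz.1, fun P i f hP hi hf => pieceF_anti (hz.2 P i f hP hi hf)⟩,
      fun X _ j _ z => sumF_zero hQ hB hI, fun X hX j _ z => sumF_one hQ hB hI hX,
      fun X hX j _ => ?_, fun X hX j _ => sumF_top hQ hB hI hX,
      fun X Y _ _ j i _ _ ν Γ hΓ z hz => sumF_stable hΓ hz,
      fun X Y hX _ j i _ _ ν Γ hΓ hk z hz => sumF_shift hQ hB hI hX hΓ hk hz⟩⟩
    obtain ⟨P, hP, f, g, hf, hg, hfg⟩ := hX
    apply le_antisymm
    · rintro z ⟨hz, h⟩
      have h1 := h P j f hP trivial (gr_congr (by ring) hf)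
      rw [pieceF_two hQ hB hI (exists_pieceCK hQ hP)] at h1
      have h2 : z = C.act g (C.act f z) := by rw [← C.act_comp, hfg, act_dg]
      rw [h2]
      exact hN.stable P X j j g (gr_congr (by ring) hg) _ h1
    · intro z hz
      refine ⟨(hN.deg X j z hz).1, fun P i f hP hi hf => ?_⟩
      rw [pieceF_two hQ hB hI (exists_pieceCK hQ hP)]
      exact hN.stable X P j i f hf z hz

end weil

end Pool.Agent.Y148.SL
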