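import Pool.Agent.Y148.SL.Mult

/-!
# Murre's conjectures for the varieties generated by a sliced system
-/

open CategoryTheory AlgebraicGeometry

universe u v w

namespace Pool.Agent.Y148.SL

open Pool.Agent.H914 Pool.Agent.H914.VarClass Pool.Agent.H914.VarClass.Obj Pool.Agent.W492.BB
  Pool.Agent.W550.Corr Pool.Agent.TH133
open Pool.Agent.Y148.BB hiding IsPart IsPiece IsPieceCK Van PartVan tens_part_van
  pieces_act_zero tens_mem_span exists_pieceCK

set_option linter.unusedSectionVars false
set_option linter.unusedVariables false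

variable {k : Type u} [Field k] {𝒱 : VarClass k}

section weil

variable {C : TheoryData.{u, v, 0} 𝒱 ℚ} {K : Type w} [Field K]
  (H : WeilTheoryData.{u, v, w} C K)

/-- Murre's conjectures for `X`. -/
structure MurreAll (X : 𝒱.Obj) : Prop where
  a : ∃ π, IsCK H X π
  b0 : MurreB0 H X
  b1 : MurreB1 H X
  c : MurreC H X
  d : MurreD H X

variable {H} [hC : IsChowProj C] [hH : IsWeilProj H] {X Y Z W T P : 𝒱.Obj} {Q : Fam C}
  {B : ∀ X : 𝒱.Obj, ℕ → Submodule ℚ (C.A X)} {t : ℕ} {S : 𝒱.Obj → Prop}
  {F : ∀ X : 𝒱.Obj, ℕ → ℕ → Submodule ℚ (C.A X)}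

include hC hH

lemma IsMult.act_mem (hF : IsMult H S F) (hX : S X) (hXX : S (X.prod X)) {Γ : C.A (X.prod X)}
    (hΓ : C.Deg X.dim Γ) {j ν : ℕ} {z : C.A X} (hz : z ∈ F X j ν) : C.act Γ z ∈ F X j ν := by
  have h1 : C.up (fst X X) z ∈ F (X.prod X) j ν := hF.pull _ _ hXX hX _ _ _ z hz
  have h2 : Γ ∈ F (X.prod X) X.dim 0 := (hF.zero _ hXX _ _).2 hΓ
  have h3 := hF.mul _ hXX _ _ _ _ _ h2 _ h1
  have h4 := hF.push _ _ hXX hX (snd X X) _ j _ (by rw [dim_prod]; omega) _ h3
  rw [zero_add] at h4
  exact h4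

/-- The filtration is the one attached to any Chow-Kunneth decomposition. -/
lemma IsMult.mem_iff (hF : IsMult H S F) (hX : S X) (hXX : S (X.prod X))
    {π : ℕ → C.A (X.prod X)} (hπ : IsCK H X π) {j ν : ℕ} {z : C.A X} :
    z ∈ F X j ν ↔ z ∈ ckFil C π j ν := by
  have hk : ∀ i μ : ℕ, i + μ ≠ 2 * j → Kills H (π i) (2 * j - μ) := by
    intro i μ h a ha
    exact hπ.act_ne i _ a (by omega) ha
  have hmono : ∀ μ : ℕ, ∀ y ∈ F X j (μ + ν), y ∈ F X j ν := by
    intro μ
    induction μ with
    | zero => intro y hy; rwa [zero_add] at hy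
    | succ μ ih =>
      intro y hy
      apply ih
      apply hF.anti X hX
      rwa [add_right_comm]
  rw [hπ.mem_ckFil]
  constructor
  · intro hz
    have hdeg : z ∈ C.gr X j := by
      have h0 : ∀ μ : ℕ, ∀ y ∈ F X j μ, y ∈ F X j 0 := by
        intro μ
        induction μ with
        | zero => intro y hy; exact hy
        | succ μ ih => intro y hy; exact ih y (hF.anti X hX j μ hy)
      exact (hF.zero X hX j z).1 (h0 ν z hz)
    refine ⟨hdeg, fun i hi => ?_⟩
    have key : ∀ μ : ℕ, C.act (π i) z ∈ F X j (ν + μ) := by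
      intro μ
      induction μ with
      | zero => exact hF.act_mem hX hXX (hπ.deg i) hz
      | succ μ ih =>
        have h1 := hF.motivic X hX j (ν + μ) (π i) (hπ.deg i) (hk i (ν + μ) (by omega)) _ ih
        rw [← C.act_comp, hπ.idem] at h1
        exact h1
    have h2 : ∀ μ : ℕ, ∀ y ∈ F X j (j + 1 + μ), y ∈ F X j (j + 1) := by
      intro μ
      induction μ with
      | zero => intro y hy; exact hy
      | succ μ ih => intro y hy; exact ih y (hF.anti X hX j (j + 1 + μ) hy)
    have h3 := h2 ν _ (by rw [add_comm]; exact key (j + 1))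
    rw [hF.top X hX j] at h3
    exact (Submodule.mem_bot _).1 h3
  · rintro ⟨hz, h⟩
    rw [sum_act hπ z]
    apply Submodule.sum_mem
    intro i _
    by_cases hi : 2 * j + 1 - ν ≤ i
    · rw [h i hi]
      exact Submodule.zero_mem _
    · have key : ∀ μ : ℕ, μ ≤ ν → C.act (π i) z ∈ F X j μ := by
        intro μ
        induction μ with
        | zero =>
          intro _
          exact hF.act_mem hX hXX (hπ.deg i) ((hF.zero X hX j z).2 hz)
        | succ μ ih =>
          intro hμ
          have h1 := hF.motivic X hX j μ (π i) (hπ.deg i) (hk i μ (by omega)) _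
            (ih (by omega))
          rw [← C.act_comp, hπ.idem] at h1
          exact h1
      exact key ν le_rfl

omit hC hH in
lemma tens_zero_right' {F : Type w} [Field F] (T : TheoryData.{u, v, w} 𝒱 F)
    (Γ : T.A (X.prod Y)) : tens T Γ (0 : T.A (Z.prod W)) = 0 := by
  rw [tens, map_zero, mul_zero]

omit hH in
lemma act_dg_tens (γ δ : C.A (X.prod X)) :
    C.act (tens C (dg C X) γ) δ = C.comp δ γ := by
  rw [act_tens C (ch_comm C), tp_dg, dg_comp]

lemma IsMult.comp_mem (hF : IsMult H S F) (hXX : S (X.prod X)) {γ δ : C.A (X.prod X)}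
    (hγ : C.Deg X.dim γ) (hγ' : H.cl γ = 0) {n : ℕ} (hδ : δ ∈ F (X.prod X) X.dim n) :
    C.comp δ γ ∈ F (X.prod X) X.dim (n + 1) := by
  rw [← act_dg_tens]
  apply hF.motivic _ hXX _ _ _ _ _ _ hδ
  · have h1 := tens_mem C (dg_mem C X) hγ
    rw [dim_prod]
    push_cast
    exact h1
  · intro a _
    rw [cl_tens, hγ', tens_zero_right', TheoryData.act_zero]

/-- Homologically trivial correspondences are nilpotent. -/
lemma IsMult.nilpotent (hF : IsMult H S F) (hXX : S (X.prod X)) {γ : Cor C X}
    (hγ : γ ∈ cor0 C X) (hγ' : H.cl (X := X.prod X) γ = 0) : γ ^ (X.dim + 1) = 0 := by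
  have key : ∀ n : ℕ, (γ ^ n : Cor C X) ∈ F (X.prod X) X.dim n := by
    intro n
    induction n with
    | zero =>
      rw [pow_zero]
      exact (hF.zero _ hXX _ _).2 (dg_mem C X)
    | succ n ih =>
      rw [pow_succ']
      exact hF.comp_mem hXX hγ hγ' ih
  have h1 := key (X.dim + 1)
  rw [hF.top _ hXX] at h1
  exact (Submodule.mem_bot _).1 h1

variable (C X) in
/-- The action of the correspondences of degree zero on the cohomology. -/
noncomputable def actH0 (H : WeilTheoryData.{u, v, w} C K) [hH : IsWeilProj H] :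
    cor0 C X →+* Module.End K (H.A X) :=
  (actH C X H).comp (cor0 C X).val.toRingHom

/-- Lifting of Kunneth projectors along nilpotent ideals. -/
lemma exists_ck_of_nil (hnil : ∀ γ : Cor C X, γ ∈ cor0 C X → H.cl (X := X.prod X) γ = 0 →
      ∃ n, γ ^ n = 0)
    {π : ℕ → C.A (P.prod P)} (hπ : IsCK H P π) {f : C.A (X.prod P)} {g : C.A (P.prod X)}
    (hf : C.Deg X.dim f) (hg : C.Deg P.dim g) (hfg : C.comp f g = dg C X) :
    ∃ ρ, IsCK H X ρ := by
  have hmem : ∀ i, C.comp (C.comp f (π i)) g ∈ C.gr (X.prod X) X.dim := by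
    intro i
    have h1 := comp_mem C (e := 0) (e' := 0) (by rw [add_zero]; exact hf)
      (by rw [add_zero]; exact hπ.deg i)
    have h2 := comp_mem C (e' := 0) h1 (by rw [add_zero]; exact hg)
    exact gr_congr (by ring) h2
  let E : Fin (2 * X.dim + 1) → cor0 C X := fun i => ⟨C.comp (C.comp f (π i)) g, hmem i⟩
  let e : Fin (2 * X.dim + 1) → Module.End K (H.A X) := fun i => actH0 C X H (E i)
  have he : ∀ (i : Fin (2 * X.dim + 1)) (m : ℤ) (a : H.A X), a ∈ H.gr X m →
      e i a = if m = (i : ℕ) then a else 0 := by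
    intro i m a ha
    have h1 : e i a = H.act (H.cl g) (H.act (H.cl (π i)) (H.act (H.cl f) a)) := by
      rw [← actH_comp H, ← actH_comp H, ← comp_assoc C]
      rfl
    have h2 : H.act (H.cl f) a ∈ H.gr P m := by
      have h4 := actH_mem H (e := 0) (by rw [add_zero]; exact hf) ha
      rwa [mul_zero, add_zero] at h4
    have h3 : H.act (H.cl g) (H.act (H.cl f) a) = a := by
      rw [← actH_comp H, hfg, actH_dg]
    rw [h1, hπ.actH_eq _ _ h2]
    split_ifs
    · exact h3
    · rw [TheoryData.act_map_zero]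
  have hcomp : CompleteOrthogonalIdempotents e := by
    refine ⟨⟨fun i => ?_, fun i j hij => ?_⟩, ?_⟩
    · apply ext_gr H
      intro m a ha
      rw [Module.End.mul_apply, he i m a ha]
      split_ifs with h
      · rw [he i m a ha, if_pos h]
      · rw [map_zero]
    · change e i * e j = 0
      apply ext_gr H
      intro m a ha
      rw [Module.End.mul_apply, he j m a ha, LinearMap.zero_apply]
      split_ifs with h
      · rw [he i m a ha, if_neg]
        intro h'
        apply hij
        apply Fin.ext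
        omega
      · rw [map_zero]
    · apply ext_gr H
      intro m a ha
      rw [LinearMap.sum_apply, Module.End.one_apply]
      rcases lt_or_ge m 0 with h0 | h0
      · rw [H.gr_neg X m h0] at ha
        rw [(Submodule.mem_bot _).1 ha]
        simp
      · obtain ⟨m, rfl⟩ := Int.eq_ofNat_of_zero_le h0
        by_cases hm : m < 2 * X.dim + 1
        · rw [Finset.sum_eq_single (⟨m, hm⟩ : Fin (2 * X.dim + 1))]
          · rw [he _ _ a ha, if_pos rfl]
          · intro i _ hi
            rw [he _ _ a ha, if_neg]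
            intro h'
            apply hi
            apply Fin.ext
            exact_mod_cast h'.symm
          · intro h'
            exact absurd (Finset.mem_univ _) h'
        · rw [gr_top H (by omega)] at ha
          rw [(Submodule.mem_bot _).1 ha]
          simp
  have hker : ∀ x ∈ RingHom.ker (actH0 C X H), IsNilpotent x := by
    intro x hx
    have h1 : H.cl (X := X.prod X) (x : Cor C X) = 0 := by
      apply hom_zero_of_act H
      intro a
      exact LinearMap.congr_fun hx a
    obtain ⟨n, hn⟩ := hnil x x.2 h1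
    exact ⟨n, Subtype.ext (by rw [SubmonoidClass.coe_pow, hn]; rfl)⟩
  obtain ⟨e', he', hee⟩ := CompleteOrthogonalIdempotents.lift_of_isNilpotent_ker
    (actH0 C X H) hker hcomp (fun i => ⟨E i, rfl⟩)
  have hee' : ∀ i (a : H.A X), actH C X H (e' i : Cor C X) a = e i a := by
    intro i a
    exact LinearMap.congr_fun (congrFun hee i) a
  obtain ⟨R, hR, hR0⟩ : ∃ R : ℕ → Cor C X, (∀ i (h : i < 2 * X.dim + 1),
      R i = ((e' ⟨i, h⟩ : cor0 C X) : Cor C X)) ∧ ∀ i, ¬ i < 2 * X.dim + 1 → R i = 0 :=
    ⟨fun i => if h : i < 2 * X.dim + 1 then ((e' ⟨i, h⟩ : cor0 C X) : Cor C X)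
      else (0 : Cor C X), fun i h => dif_pos h, fun i h => dif_neg h⟩
  refine ⟨R, isCK_of (P := R) (fun i => ?_) (fun i hi => hR0 i (by omega)) (fun i j => ?_) ?_
    (fun i m a ha => ?_)⟩
  · by_cases h : i < 2 * X.dim + 1
    · rw [hR i h]
      exact (e' ⟨i, h⟩).2
    · rw [hR0 i h]
      exact (cor0 C X).zero_mem
  · by_cases h : i < 2 * X.dim + 1
    · by_cases h' : j < 2 * X.dim + 1
      · rw [hR i h, hR j h']
        by_cases hij : i = j
        · subst hij
          rw [if_pos rfl]
          exact congrArg Subtype.val (he'.idem ⟨i, h⟩)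
        · rw [if_neg hij]
          exact congrArg Subtype.val (he'.ortho (i := ⟨i, h⟩) (j := ⟨j, h'⟩)
            (fun hh => hij (congrArg Fin.val hh)))
      · rw [hR0 j h', mul_zero, if_neg (by omega)]
    · rw [hR0 i h, zero_mul]
      split_ifs <;> rfl
  · rw [Finset.sum_range]
    have h1 : ∀ i : Fin (2 * X.dim + 1), R i = ((e' i : cor0 C X) : Cor C X) := by
      intro i
      rw [hR i i.2]
    simp_rw [h1]
    have h2 : (((∑ i, e' i : cor0 C X)) : Cor C X) = 1 := by
      rw [he'.complete]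
      rfl
    rw [AddSubmonoidClass.coe_finsetSum] at h2
    exact h2
  · by_cases h : i < 2 * X.dim + 1
    · rw [hR i h, hee', he _ m a ha]
    · rw [hR0 i h, map_zero, LinearMap.zero_apply]
      split_ifs with hm
      · rw [gr_top H (by omega)] at ha
        exact ((Submodule.mem_bot _).1 ha).symm
      · rfl

omit hH in
lemma summandOf_prod (hX : SummandOf C (IsProduct Q) X) (hY : SummandOf C (IsProduct Q) Y) :
    SummandOf C (IsProduct Q) (X.prod Y) := by
  obtain ⟨P, hP, f, g, hf, hg, hfg⟩ := hX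
  obtain ⟨P', hP', f', g', hf', hg', hfg'⟩ := hY
  refine ⟨P.prod P', IsProduct.prod P P' hP hP', tens C f f', tens C g g', ?_, ?_, ?_⟩
  · exact gr_congr (by rw [dim_prod]; push_cast; ring) (tens_mem C hf hf')
  · exact gr_congr (by rw [dim_prod]; push_cast; ring) (tens_mem C hg hg')
  · rw [tens_comp'', hfg, hfg', tens_dg]

/-- Murre's conjectures for the varieties in the class. -/
theorem IsMult.murreAll (hQ : IsSystem H Q) (hF : IsMult H (SummandOf C (IsProduct Q)) F)
    (hX : SummandOf C (IsProduct Q) X) : MurreAll H X := by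
  have hXX := summandOf_prod hX hX
  refine ⟨?_, fun π hπ i => ?_, fun π hπ i => ?_, fun π π' hπ hπ' i n => ?_,
    fun π hπ i x => ?_⟩
  · obtain ⟨P, hP, f, g, hf, hg, hfg⟩ := hX
    obtain ⟨π, hπ⟩ := exists_pieceCK hQ hP
    exact exists_ck_of_nil (fun γ hγ hγ' => ⟨_, hF.nilpotent hXX hγ hγ'⟩) hπ.ck hf hg hfg
  · ext z
    rw [← hF.mem_iff hX hXX hπ, hF.zero X hX]
  · rw [eq_bot_iff]
    intro z hz
    rw [← hF.mem_iff hX hXX hπ, hF.top X hX] at hz
    exact hz
  · ext z
    rw [← hF.mem_iff hX hXX hπ, ← hF.mem_iff hX hXX hπ']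
  · rw [← hF.mem_iff hX hXX hπ, hF.one X hX]

/-- Murre's conjecture (D) for products gives the vanishing in the middle weight. -/
theorem inj_of_murreD (hQ : IsSystem H Q) (hD : ∀ X, IsProduct Q X → MurreD H X) (j : ℕ) :
    Inj Q 0 (homB H) j := by
  intro n P p hn hp z hz hpz
  obtain ⟨q, hq, hqp⟩ := hp.exists_ck hQ
  have h1 := (hD P hp.isProduct q hq j z).2 hz
  rw [hq.mem_ckFil] at h1
  have h2 := h1.2 n (by omega)
  rw [← hpz]
  have h3 := hqp n
  rw [if_pos rfl] at h3
  rw [← h3, C.act_comp, h2, TheoryData.act_map_zero]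

/-- **Murre's conjectures and Bloch-Beilinson filtrations for a sliced system.** -/
theorem tfae_system (hQ : IsSystem H Q) :
    List.TFAE [∃ F, IsMult H (SummandOf C (IsProduct Q)) F,
      ∀ X, SummandOf C (IsProduct Q) X → MurreAll H X,
      ∀ X, IsProduct Q X → MurreD H X,
      ∀ j, Inj Q 0 (homB H) j] := by
  tfae_have 1 → 2 := fun ⟨F, hF⟩ X hX => hF.murreAll hQ hX
  tfae_have 2 → 3 := fun h X hX => (h X (SummandOf.self (H := H) hX)).d
  tfae_have 3 → 4 := fun h => inj_of_murreD hQ h
  tfae_have 4 → 1 := (mult_iff hQ).2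
  tfae_finish

end weil

end Pool.Agent.Y148.SL
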