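import Pool.Agent.Y148.SL.Van
import Pool.Agent.Y148.BB.Fil

/-!
# Chow-Kunneth decompositions into pieces
-/

open CategoryTheory AlgebraicGeometry

universe u v w

namespace Pool.Agent.Y148.SL

open Pool.Agent.H914 Pool.Agent.H914.VarClass Pool.Agent.H914.VarClass.Obj Pool.Agent.W492.BB
  Pool.Agent.W550.Corr Pool.Agent.TH133
open Pool.Agent.Y148.BB hiding IsPart IsPiece IsPieceCK Van PartVan tens_part_van
  pieces_act_zero tens_mem_span exists_pieceCK

set_option linter.unusedSectionVars false
set_option linter.unusedVariables false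

variable {k : Type u} [Field k] {𝒱 : VarClass k}

section weil

variable {C : TheoryData.{u, v, 0} 𝒱 ℚ} [hC : IsChowProj C] {K : Type w} [Field K]
  {H : WeilTheoryData.{u, v, w} C K} [hH : IsWeilProj H] {X Y Z W T P : 𝒱.Obj} {Q : Fam C}
  {B : ∀ X : 𝒱.Obj, ℕ → Submodule ℚ (C.A X)} {t d : ℕ}

include hC hH

lemma IsPiece.tens (hQ : IsSystem H Q) {m m' : ℕ} {R : C.A (X.prod X)}
    {R' : C.A (Z.prod Z)} (h : IsPiece C Q m X R) (h' : IsPiece C Q m' Z R') :
    IsPiece C Q (m + m') (X.prod Z) (tens C R R') := by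
  cases h with
  | zero _ c v u hv hu =>
    cases h' with
    | zero _ c' v' u' hv' hu' =>
      rw [tens_ext_ext, ← mul_add]
      apply IsPiece.zero
      · exact gr_congr (by rw [dim_prod]; push_cast; ring) (ext_mem' hv hv')
      · exact gr_congr (by push_cast; ring) (ext_mem' hu hu')
    | part _ n c' P p hp f g hf hg =>
      rw [tens_ext_left]
      have e1 : C.comp (wg C (snd X Z) (C.pull (fst X Z) v)) (C.comp (C.comp f (C.comp p g))
          (tp C (wg C (snd X Z) (C.pull (fst X Z) u)))) =
          C.comp (C.comp (wg C (snd X Z) (C.pull (fst X Z) v)) f) (C.comp p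
            (C.comp g (tp C (wg C (snd X Z) (C.pull (fst X Z) u))))) := by
        simp only [comp_assoc C]
      have e2 : 2 * c + (n + 2 * c') = n + 2 * (c + c') := by ring
      rw [e1, e2]
      apply IsPiece.part _ _ _ _ _ hp
      · have h1 : wg C (snd X Z) (C.pull (fst X Z) v) ∈
            C.gr ((X.prod Z).prod Z) ((X.prod Z).dim + (-(c : ℤ))) :=
          gr_congr (by rw [dim_prod]; push_cast; ring) (wg_mem (snd X Z) (C.pull_mem (fst X Z) hv))
        have h2 : f ∈ C.gr (Z.prod P) (Z.dim + (-(c' : ℤ))) := gr_congr (by ring) hf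
        exact gr_congr (by push_cast; ring) (comp_mem C h1 h2)
      · have h1 : tp C (wg C (snd X Z) (C.pull (fst X Z) u)) ∈
            C.gr (Z.prod (X.prod Z)) (Z.dim + (c : ℤ)) :=
          gr_congr (by ring) (tp_mem C (wg_mem (snd X Z) (C.pull_mem (fst X Z) hu)))
        exact gr_congr (by push_cast; ring) (comp_mem C hg h1)
  | part _ n c P p hp f g hf hg =>
    cases h' with
    | zero _ c' v' u' hv' hu' =>
      rw [tens_ext_right]
      have e1 : C.comp (wg C (fst X Z) (C.pull (snd X Z) v')) (C.comp (C.comp f (C.comp p g))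
          (tp C (wg C (fst X Z) (C.pull (snd X Z) u')))) =
          C.comp (C.comp (wg C (fst X Z) (C.pull (snd X Z) v')) f) (C.comp p
            (C.comp g (tp C (wg C (fst X Z) (C.pull (snd X Z) u'))))) := by
        simp only [comp_assoc C]
      have e2 : (n + 2 * c) + 2 * c' = n + 2 * (c + c') := by ring
      rw [e1, e2]
      apply IsPiece.part _ _ _ _ _ hp
      · have h1 : wg C (fst X Z) (C.pull (snd X Z) v') ∈
            C.gr ((X.prod Z).prod X) ((X.prod Z).dim + (-(c' : ℤ))) :=
          gr_congr (by rw [dim_prod]; push_cast; ring) (wg_mem (fst X Z) (C.pull_mem (snd X Z) hv'))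
        have h2 : f ∈ C.gr (X.prod P) (X.dim + (-(c : ℤ))) := gr_congr (by ring) hf
        exact gr_congr (by push_cast; ring) (comp_mem C h1 h2)
      · have h1 : tp C (wg C (fst X Z) (C.pull (snd X Z) u')) ∈
            C.gr (X.prod (X.prod Z)) (X.dim + (c' : ℤ)) :=
          gr_congr (by ring) (tp_mem C (wg_mem (fst X Z) (C.pull_mem (snd X Z) hu')))
        exact gr_congr (by push_cast; ring) (comp_mem C hg h1)
    | part _ n' c' P' p' hp' f' g' hf' hg' =>
      obtain ⟨P₀, p₀, a, h₀, ha⟩ := hp.tens_part hp'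
      have e0 : C.pull (prodMap a a) p₀ = C.comp (wg C a 1) (C.comp p₀ (tp C (wg C a 1))) := by
        rw [wg_comp_comp, TheoryData.ext, map_one, map_one, mul_one, mul_one]
      have e1 : Pool.Agent.TH133.tens C (C.comp f (C.comp p g)) (C.comp f' (C.comp p' g')) =
          C.comp (C.comp (Pool.Agent.TH133.tens C f f') (wg C a 1)) (C.comp p₀
            (C.comp (tp C (wg C a 1)) (Pool.Agent.TH133.tens C g g'))) := by
        rw [← tens_comp'', ← tens_comp'', ha, e0]
        simp only [comp_assoc C]
      have e2 : (n + 2 * c) + (n' + 2 * c') = (n + n') + 2 * (c + c') := by ring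
      have hd0 := h₀.dim_eq hQ
      have hd1 := hp.dim_eq hQ
      have hd2 := hp'.dim_eq hQ
      rw [e1, e2]
      apply IsPiece.part _ _ _ _ _ h₀
      · have h1 : Pool.Agent.TH133.tens C f f' ∈
            C.gr ((X.prod Z).prod (P.prod P')) ((X.prod Z).dim + (-(c : ℤ) - c')) :=
          gr_congr (by rw [dim_prod]; push_cast; ring) (tens_mem C hf hf')
        have h2 : wg C a 1 ∈ C.gr ((P.prod P').prod P₀) ((P.prod P').dim + 0) :=
          gr_congr (by rw [dim_prod, hd0, hd1, hd2]; push_cast; ring) (wg_mem a (C.one_mem _))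
        exact gr_congr (by push_cast; ring) (comp_mem C h1 h2)
      · have h1 : tp C (wg C a 1) ∈ C.gr (P₀.prod (P.prod P')) (P₀.dim + 0) :=
          gr_congr (by ring) (tp_mem C (wg_mem a (C.one_mem _)))
        have h2 : Pool.Agent.TH133.tens C g g' ∈
            C.gr ((P.prod P').prod (X.prod Z)) ((P.prod P').dim + ((c : ℤ) + c')) :=
          gr_congr (by rw [dim_prod]; push_cast; ring) (tens_mem C hg hg')
        exact gr_congr (by push_cast; ring) (comp_mem C h1 h2)

/-- The vanishing statements for correspondences in the motive of the product of two parts. -/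
theorem comp_part_zero (hQ : IsSystem H Q) (hB : IsBottom H t B) (hI : ∀ j ≤ d, Inj Q t B j)
    {n n' : ℕ} {p : C.A (P.prod P)} {P' : 𝒱.Obj}
    {p' : C.A (P'.prod P')} (h : IsPart Q n P p) (h' : IsPart Q n' P' p') (e : ℤ)
    (η : C.A (P.prod P')) (hη : η ∈ C.gr (P.prod P') e) (he : e ≤ d)
    (hcase : 2 * e < n + n' ∨ (2 * e = n + n' ∧ H.cl η = 0)) :
    C.comp p (C.comp η p') = 0 := by
  obtain ⟨P₀, p₀, a, h₀, ha⟩ := h.tens_part h'
  have hd0 := h₀.dim_eq hQ
  have hd1 := h.dim_eq hQ
  have hd2 := h'.dim_eq hQ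
  have hv := h₀.van hQ hB hI
  have e0 : Pool.Agent.TH133.tens C p p' =
      C.comp (C.graph a) (C.comp p₀ (tp C (C.graph a))) := by
    have h1 := wg_comp_comp a a 1 1 p₀
    rw [TheoryData.ext, map_one, map_one, mul_one, mul_one] at h1
    rw [ha, ← h1]
    rfl
  have e1 : C.comp p (C.comp η p') = C.act (Pool.Agent.TH133.tens C p p') η := by
    rw [act_tens C (ch_comm C), h.tp_eq hQ, comp_assoc C]
  have h1 : C.act (C.graph a) η ∈ C.gr P₀ e := by
    rw [C.act_graph]
    have := C.push_mem a hη
    exact gr_congr (by rw [dim_prod, hd0, hd1, hd2]; push_cast; ring) this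
  rw [e1, e0, C.act_comp, C.act_comp]
  rcases hcase with h2 | ⟨h2, h3⟩
  · rw [hv.lt e _ he (by push_cast; exact h2) h1, TheoryData.act_map_zero]
  · rw [hv.eq e _ he (by push_cast; exact h2) h1 (act_hom h3), TheoryData.act_map_zero]

variable (H) (B) in
/-- The vanishing statements in codimension at most `d` for a correspondence of weight `m`. -/
structure Van (t d m : ℕ) (X : 𝒱.Obj) (R : C.A (X.prod X)) : Prop where
  lt : ∀ (j : ℤ) (z : C.A X), j ≤ d → 2 * j < m → z ∈ C.gr X j → C.act R z = 0
  eq : ∀ (j : ℤ) (z : C.A X), j ≤ d → 2 * j = m → z ∈ C.gr X j → H.cl z = 0 → C.act R z = 0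
  bot : ∀ (j : ℕ) (z : C.A X), j ≤ d → 2 * j = m + t → z ∈ B X j → C.act R z = 0
  gt : ∀ (j : ℤ) (z : C.A X), m < j → z ∈ C.gr X j → C.act R z = 0

theorem IsPiece.van (hQ : IsSystem H Q) (hB : IsBottom H t B) (hI : ∀ j ≤ d, Inj Q t B j)
    {m : ℕ} {R : C.A (X.prod X)} (h : IsPiece C Q m X R) : Van H B t d m X R := by
  cases h with
  | zero _ c v u hv hu =>
    refine ⟨fun j z _ hj hz => ?_, fun j z _ hj hz hz' => ?_, fun j z _ hj hz => ?_,
      fun j z hj hz => ?_⟩
    · exact act_ext_eq_zero_of_ne hv hz (by push_cast at hj; omega)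
    · exact act_ext_eq_zero_of_hom hv hz hz'
    · obtain ⟨h1, h2⟩ := hB.deg X j z hz
      exact act_ext_eq_zero_of_hom hv h1 h2
    · exact act_ext_eq_zero_of_ne hv hz (by push_cast at hj; omega)
  | part _ n c P p hp f g hf hg =>
    have hv := hp.van hQ hB hI
    have hact : ∀ z, C.act (C.comp f (C.comp p g)) z = C.act g (C.act p (C.act f z)) := by
      intro z
      rw [C.act_comp, C.act_comp]
    have hfm : ∀ (j : ℤ) z, z ∈ C.gr X j → C.act f z ∈ C.gr P (j - c) := by
      intro j z hz
      have h1 : f ∈ C.gr (X.prod P) (X.dim + (-(c : ℤ))) := gr_congr (by ring) hf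
      exact gr_congr (by ring) (act_mem' C h1 hz)
    refine ⟨fun j z hd hj hz => ?_, fun j z hd hj hz hz' => ?_, fun j z hd hj hz => ?_,
      fun j z hj hz => ?_⟩
    · push_cast at hj
      rw [hact, hv.lt (j - c) _ (by omega) (by omega) (hfm j z hz), TheoryData.act_map_zero]
    · push_cast at hj
      rw [hact, hv.eq (j - c) _ (by omega) (by omega) (hfm j z hz) (act_hom hz'),
        TheoryData.act_map_zero]
    · rw [hact, hv.bot (j - c) _ (by omega) (by omega), TheoryData.act_map_zero]
      apply hB.stable X P j (j - c) f _ z hz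
      have h2 : ((j - c : ℕ) : ℤ) = j - c := by omega
      exact gr_congr (by rw [h2]; ring) hf
    · have h1 := hfm j z hz
      have h2 := hp.dim_eq hQ
      push_cast at hj
      rw [hact, hC.gr_top P (j - c) _ h1 (by omega), TheoryData.act_map_zero,
        TheoryData.act_map_zero]

/-- The composition of a correspondence with two pieces which raise the weights acts as zero. -/
theorem pieces_act_zero (hQ : IsSystem H Q) (hB : IsBottom H t B) (hI : ∀ j ≤ d, Inj Q t B j)
    {a b : ℕ} {R : C.A (X.prod X)} {R' : C.A (Y.prod Y)} (h : IsPiece C Q a X R)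
    (h' : IsPiece C Q b Y R')
    {i j : ℤ} {Γ : C.A (X.prod Y)} (hΓ : Γ ∈ C.gr (X.prod Y) (X.dim + i - j)) {z : C.A X}
    (hz : z ∈ C.gr X j) (hid : i ≤ d) (hd : i - j + a ≤ d)
    (hcase : 2 * i + a < 2 * j + b ∨ (2 * i + a = 2 * j + b ∧ H.cl Γ = 0)) :
    C.act R' (C.act Γ (C.act R z)) = 0 := by
  have hv' := h'.van hQ hB hI
  have hΓ' : Γ ∈ C.gr (X.prod Y) (X.dim + (i - j)) := gr_congr (by ring) hΓ
  cases h with
  | zero _ c v u hv hu =>
    by_cases hjc : j = c
    · have h1 : C.act (C.ext v u) z ∈ C.gr X j := by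
        have h2 : C.ext v u ∈ C.gr (X.prod X) X.dim := gr_congr (by ring) (ext_mem' hv hu)
        exact act_mem0 C h2 hz
      have h2 : C.act Γ (C.act (C.ext v u) z) ∈ C.gr Y i :=
        gr_congr (by ring) (act_mem' C hΓ' h1)
      rcases hcase with h3 | ⟨h3, h4⟩
      · apply hv'.lt i _ hid _ h2
        push_cast at h3
        omega
      · apply hv'.eq i _ hid _ h2
        · rw [cl_act H, h4, TheoryData.act_zero]
        · push_cast at h3
          omega
    · have h1 : C.act (C.ext v u) z = 0 := act_ext_eq_zero_of_ne hv hz hjc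
      rw [h1, TheoryData.act_map_zero, TheoryData.act_map_zero]
  | part _ n c P p hp f g hf hg =>
    have hdP := hp.dim_eq hQ
    have hact : C.act (C.comp f (C.comp p g)) z = C.act g (C.act p (C.act f z)) := by
      rw [C.act_comp, C.act_comp]
    have hf' : f ∈ C.gr (X.prod P) (X.dim + (-(c : ℤ))) := gr_congr (by ring) hf
    have hfz : C.act f z ∈ C.gr P (j - c) := gr_congr (by ring) (act_mem' C hf' hz)
    have hpz : C.act p (C.act f z) ∈ C.gr P (j - c) := act_mem0 C (hp.mem hQ) hfz
    cases h' with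
    | zero _ c' v' u' hv0 hu0 =>
      rw [hact]
      have h3 : C.act g (C.act p (C.act f z)) ∈ C.gr X j :=
        gr_congr (by ring) (act_mem' C hg hpz)
      have h4 : C.act Γ (C.act g (C.act p (C.act f z))) ∈ C.gr Y i :=
        gr_congr (by ring) (act_mem' C hΓ' h3)
      by_cases hic : i = c'
      · apply act_ext_eq_zero_of_hom (H := H) hv0 h4
        rcases hcase with h5 | ⟨h5, h6⟩
        · apply act_hom (H := H)
          apply act_hom (H := H)
          rw [cl_act H]
          apply hp.kills hQ (m := 2 * (j - c)) _ _ (H.cl_mem hfz)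
          push_cast at h5
          omega
        · rw [cl_act H, h6, TheoryData.act_zero]
      · exact act_ext_eq_zero_of_ne hv0 h4 hic
    | part _ n' c' P' p' hp' f' g' hf0 hg0 =>
      have hf0' : f' ∈ C.gr (Y.prod P') (Y.dim + (-(c' : ℤ))) := gr_congr (by ring) hf0
      set η := C.comp (C.comp g Γ) f' with hη
      have hηm : η ∈ C.gr (P.prod P') (n + (i - c') - (j - c)) := by
        have h1 := comp_mem C (comp_mem C hg hΓ') hf0'
        exact gr_congr (by rw [hdP]; ring) h1
      have h0 : C.comp p (C.comp η p') = 0 := by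
        apply comp_part_zero hQ hB hI hp hp' _ η hηm (by push_cast at hd; omega)
        rcases hcase with h3 | ⟨h3, h4⟩
        · left
          push_cast at h3
          omega
        · right
          refine ⟨by push_cast at h3; omega, ?_⟩
          rw [hη, cl_comp, cl_comp, h4, comp_zero, zero_comp]
      have h1 : C.act (C.comp f' (C.comp p' g')) (C.act Γ (C.act (C.comp f (C.comp p g)) z)) =
          C.act g' (C.act (C.comp p (C.comp η p')) (C.act f z)) := by
        rw [hact, hη]
        simp only [C.act_comp]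
      rw [h1, h0, TheoryData.act_zero, TheoryData.act_map_zero]

/-- The vanishing statements are stable under linear combinations. -/
theorem Van.span {m : ℕ} {R : C.A (X.prod X)} {A : Set (C.A (X.prod X))}
    (hA : ∀ R ∈ A, Van H B t d m X R) (hR : R ∈ Submodule.span ℚ A) : Van H B t d m X R := by
  have key : ∀ z : C.A X, (∀ R ∈ A, C.act R z = 0) → C.act R z = 0 := by
    intro z hz
    have hle : Submodule.span ℚ A ≤ LinearMap.ker ((actB C (X := X) (Y := X)).flip z) := by
      rw [Submodule.span_le]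
      intro R hR
      exact hz R hR
    exact hle hR
  exact ⟨fun j z hd hj hz => key z fun R hR => (hA R hR).lt j z hd hj hz,
    fun j z hd hj hz hz' => key z fun R hR => (hA R hR).eq j z hd hj hz hz',
    fun j z hd hj hz => key z fun R hR => (hA R hR).bot j z hd hj hz,
    fun j z hj hz => key z fun R hR => (hA R hR).gt j z hj hz⟩

variable (H Q) in
/-- A Chow-Kunneth decomposition whose members are linear combinations of pieces. -/
structure IsPieceCK (X : 𝒱.Obj) (π : ℕ → C.A (X.prod X)) : Prop where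
  ck : IsCK H X π
  mem : ∀ m, π m ∈ Submodule.span ℚ {R | IsPiece C Q m X R}

theorem IsPieceCK.van {π : ℕ → C.A (X.prod X)} (h : IsPieceCK H Q X π) (hQ : IsSystem H Q)
    (hB : IsBottom H t B) (hI : ∀ j ≤ d, Inj Q t B j) (m : ℕ) : Van H B t d m X (π m) :=
  Van.span (fun R hR => IsPiece.van hQ hB hI hR) (h.mem m)

lemma tens_mem_span (hQ : IsSystem H Q) {m m' : ℕ} {R : C.A (X.prod X)}
    {R' : C.A (Z.prod Z)} (h : R ∈ Submodule.span ℚ {R | IsPiece C Q m X R})
    (h' : R' ∈ Submodule.span ℚ {R | IsPiece C Q m' Z R}) :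
    Pool.Agent.TH133.tens C R R' ∈
      Submodule.span ℚ {R | IsPiece C Q (m + m') (X.prod Z) R} := by
  have h1 : Submodule.span ℚ {R | IsPiece C Q m X R} ≤
      Submodule.comap ((tensL (C := C) (X := X) (Y := X) (Z := Z) (W := Z)).flip R')
        (Submodule.span ℚ {R | IsPiece C Q (m + m') (X.prod Z) R}) := by
    rw [Submodule.span_le]
    intro R hR
    have h2 : Submodule.span ℚ {R | IsPiece C Q m' Z R} ≤
        Submodule.comap (tensL (C := C) (X := X) (Y := X) (Z := Z) (W := Z) R)
          (Submodule.span ℚ {R | IsPiece C Q (m + m') (X.prod Z) R}) := by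
      rw [Submodule.span_le]
      intro R' hR'
      exact Submodule.subset_span (IsPiece.tens hQ hR hR')
    exact h2 h'
  exact h1 h

lemma IsPieceCK.prod (hQ : IsSystem H Q) {π : ℕ → C.A (X.prod X)}
    {ρ : ℕ → C.A (Z.prod Z)} (h : IsPieceCK H Q X π) (h' : IsPieceCK H Q Z ρ) :
    IsPieceCK H Q (X.prod Z) (prodCK C π ρ) where
  ck := h.ck.prod h'.ck
  mem m := by
    unfold prodCK
    apply Submodule.sum_mem
    intro i hi
    rw [Finset.mem_range] at hi
    have h1 := tens_mem_span hQ (h.mem i) (h'.mem (m - i))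
    have e : i + (m - i) = m := by omega
    rwa [e] at h1

lemma exists_pieceCK (hQ : IsSystem H Q) (h : IsProduct Q X) : ∃ π, IsPieceCK H Q X π := by
  induction h with
  | factor m T r hr =>
    obtain ⟨π, hπ, -, h1⟩ := hQ.ck _ _ _ hr
    exact ⟨π, hπ, h1⟩
  | prod X Y hX hY ihX ihY =>
    obtain ⟨π, hπ⟩ := ihX
    obtain ⟨ρ, hρ⟩ := ihY
    exact ⟨_, hπ.prod hQ hρ⟩

omit hC hH in
lemma IsPart.isProduct {n : ℕ} {p : C.A (P.prod P)} (h : IsPart Q n P p) : IsProduct Q P := by
  induction h with
  | factor n T r hr => exact IsProduct.factor n T r hr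
  | prod n m P T p r hp hr ih => exact IsProduct.prod P T ih (IsProduct.factor m T r hr)

end weil

end Pool.Agent.Y148.SL
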