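import Pool.Agent.Y148.SL.Defs

/-!
# Vanishing for the products of the pairs of a sliced system
-/

open CategoryTheory AlgebraicGeometry

universe u v w

namespace Pool.Agent.Y148.SL

open Pool.Agent.H914 Pool.Agent.H914.VarClass Pool.Agent.H914.VarClass.Obj Pool.Agent.W492.BB
  Pool.Agent.W550.Corr Pool.Agent.TH133 Pool.Agent.Y148.BB

set_option linter.unusedSectionVars false
set_option linter.unusedVariables false

variable {k : Type u} [Field k] {𝒱 : VarClass k}

section weil

variable {C : TheoryData.{u, v, 0} 𝒱 ℚ} [hC : IsChowProj C] {K : Type w} [Field K]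
  (H : WeilTheoryData.{u, v, w} C K) [hH : IsWeilProj H] {X Y Z W T P : 𝒱.Obj} {Q : Fam C}

variable {H}

include hC hH

lemma IsPart.dim_eq (hQ : IsSystem H Q) {n : ℕ} {p : C.A (P.prod P)} (h : IsPart Q n P p) :
    P.dim = n := by
  induction h with
  | factor n T r hr => exact hQ.dim_eq _ _ _ hr
  | prod n m P T p r hp hr ih => rw [dim_prod, ih, hQ.dim_eq _ _ _ hr]

lemma IsPart.pos (hQ : IsSystem H Q) {n : ℕ} {p : C.A (P.prod P)} (h : IsPart Q n P p) :
    1 ≤ n := by
  induction h with
  | factor n T r hr => exact hQ.pos _ _ _ hr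
  | prod n m P T p r hp hr ih => omega

lemma IsPart.mem (hQ : IsSystem H Q) {n : ℕ} {p : C.A (P.prod P)} (h : IsPart Q n P p) :
    p ∈ C.gr (P.prod P) P.dim := by
  induction h with
  | factor n T r hr => exact hQ.deg _ _ _ hr
  | prod n m P T p r hp hr ih =>
    have := tens_mem C ih (hQ.deg _ _ _ hr)
    rw [dim_prod]
    push_cast
    exact this

lemma IsPart.idem (hQ : IsSystem H Q) {n : ℕ} {p : C.A (P.prod P)} (h : IsPart Q n P p) :
    C.comp p p = p := by
  induction h with
  | factor n T r hr => exact hQ.idem _ _ _ hr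
  | prod n m P T p r hp hr ih => rw [tens_comp', ih, hQ.idem _ _ _ hr]

lemma IsPart.tp_eq (hQ : IsSystem H Q) {n : ℕ} {p : C.A (P.prod P)} (h : IsPart Q n P p) :
    tp C p = p := by
  induction h with
  | factor n T r hr => exact hQ.self_dual _ _ _ hr
  | prod n m P T p r hp hr ih => rw [tp_tens, ih, hQ.self_dual _ _ _ hr]

lemma IsPart.act_act (hQ : IsSystem H Q) {n : ℕ} {p : C.A (P.prod P)} (h : IsPart Q n P p)
    (z : C.A P) : C.act p (C.act p z) = C.act p z := by
  rw [← C.act_comp, h.idem hQ]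

lemma IsPart.exists_ck (hQ : IsSystem H Q) {n : ℕ} {p : C.A (P.prod P)} (h : IsPart Q n P p) :
    ∃ q, IsCK H P q ∧ ∀ m, C.comp (q m) p = if m = n then p else 0 := by
  induction h with
  | factor n T r hr =>
    obtain ⟨π, hπ, h1, -⟩ := hQ.ck _ _ _ hr
    exact ⟨π, hπ, h1⟩
  | prod n l P T p r hp hr ih =>
    obtain ⟨q, hq, hqp⟩ := ih
    obtain ⟨s, hs, hsr, -⟩ := hQ.ck _ _ _ hr
    refine ⟨prodCK C q s, hq.prod hs, fun m => ?_⟩
    unfold prodCK
    rw [sum_comp]
    simp_rw [tens_comp', hqp, hsr]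
    split_ifs with hm
    · subst hm
      rw [Finset.sum_eq_single n]
      · rw [if_pos rfl, if_pos (by omega)]
      · intro i _ hi
        rw [if_neg hi, tens_zero_left]
      · intro h2
        rw [Finset.mem_range] at h2
        omega
    · apply Finset.sum_eq_zero
      intro i hi
      rw [Finset.mem_range] at hi
      by_cases h2 : i = n
      · rw [if_neg (by omega : ¬ m - i = l), tens_zero_right]
      · rw [if_neg h2, tens_zero_left]

lemma IsPart.kills (hQ : IsSystem H Q) {n : ℕ} {p : C.A (P.prod P)} (h : IsPart Q n P p)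
    {m : ℤ} (hm : m ≠ n) : Kills H p m := by
  intro a ha
  have ha' : a ∈ H.gr P m := ha
  rcases lt_or_ge m 0 with h0 | h0
  · rw [H.gr_neg P m h0] at ha'
    rw [(Submodule.mem_bot _).1 ha', TheoryData.act_map_zero]
  · obtain ⟨m, rfl⟩ := Int.eq_ofNat_of_zero_le h0
    obtain ⟨q, hq, hqp⟩ := h.exists_ck hQ
    rw [← hq.act_self m a ha, ← actH_comp H, hqp, if_neg (by exact_mod_cast hm), actH_zero]

omit hH in
/-- The product of two parts is a part, up to an isomorphism. -/
lemma IsPart.tens_part {n n' : ℕ} {p : C.A (P.prod P)} {P' : 𝒱.Obj} {p' : C.A (P'.prod P')}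
    (h : IsPart Q n P p) (h' : IsPart Q n' P' p') :
    ∃ (P₀ : 𝒱.Obj) (p₀ : C.A (P₀.prod P₀)) (a : P.prod P' ⟶ P₀), IsPart Q (n + n') P₀ p₀ ∧
      tens C p p' = C.pull (prodMap a a) p₀ := by
  induction h' with
  | factor n' T r hr =>
    refine ⟨P.prod T, tens C p r, 𝟙 _, IsPart.prod n n' P T p r h hr, ?_⟩
    have e1 : prodMap (𝟙 (P.prod T)) (𝟙 (P.prod T)) = 𝟙 _ := by
      apply prod_ext <;> simp
    rw [e1, C.pull_id]
  | prod n' m P' T p' r hp' hr ih =>
    obtain ⟨P₀, p₀, a, h₀, ha⟩ := ih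
    refine ⟨P₀.prod T, tens C p₀ r, aJ P P' T ≫ prodMap a (𝟙 T), ?_, ?_⟩
    · rw [← add_assoc]
      exact IsPart.prod (n + n') m P₀ T p₀ r h₀ hr
    have e1 : prodMap (aJ P P' T ≫ prodMap a (𝟙 T)) (aJ P P' T ≫ prodMap a (𝟙 T)) ≫
        prodMap (fst P₀ T) (fst P₀ T) =
        prodMap (aJ P P' T ≫ fst (P.prod P') T) (aJ P P' T ≫ fst (P.prod P') T) ≫
          prodMap a a := by
      rw [prodMap_comp, prodMap_comp]
      simp only [Category.assoc, prodMap_fst]
    have e2 : prodMap (aJ P P' T ≫ prodMap a (𝟙 T)) (aJ P P' T ≫ prodMap a (𝟙 T)) ≫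
        prodMap (snd P₀ T) (snd P₀ T) = prodMap (snd P (P'.prod T)) (snd P (P'.prod T)) ≫
          prodMap (snd P' T) (snd P' T) := by
      rw [prodMap_comp, prodMap_comp]
      have : (aJ P P' T ≫ prodMap a (𝟙 T)) ≫ snd P₀ T = snd P (P'.prod T) ≫ snd P' T := by
        simp [aJ]
      rw [this]
    have e3 : prodMap (aJ P P' T ≫ fst (P.prod P') T) (aJ P P' T ≫ fst (P.prod P') T) ≫
        prodMap (fst P P') (fst P P') = prodMap (fst P (P'.prod T)) (fst P (P'.prod T)) := by
      rw [prodMap_comp]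
      have : (aJ P P' T ≫ fst (P.prod P') T) ≫ fst P P' = fst P (P'.prod T) := by
        simp [aJ]
      rw [this]
    have e4 : prodMap (aJ P P' T ≫ fst (P.prod P') T) (aJ P P' T ≫ fst (P.prod P') T) ≫
        prodMap (snd P P') (snd P P') = prodMap (snd P (P'.prod T)) (snd P (P'.prod T)) ≫
          prodMap (fst P' T) (fst P' T) := by
      rw [prodMap_comp, prodMap_comp]
      have : (aJ P P' T ≫ fst (P.prod P') T) ≫ snd P P' = snd P (P'.prod T) ≫ fst P' T := by
        simp [aJ]
      rw [this]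
    have h1 : tens C p (tens C p' r) =
        C.pull (prodMap (fst P (P'.prod T)) (fst P (P'.prod T))) p *
          (C.pull (prodMap (snd P (P'.prod T)) (snd P (P'.prod T)) ≫
            prodMap (fst P' T) (fst P' T)) p' *
          C.pull (prodMap (snd P (P'.prod T)) (snd P (P'.prod T)) ≫
            prodMap (snd P' T) (snd P' T)) r) := by
      rw [C.pull_comp, C.pull_comp, ← map_mul]
      rfl
    have h2 : C.pull (prodMap (aJ P P' T ≫ prodMap a (𝟙 T)) (aJ P P' T ≫ prodMap a (𝟙 T)))
        (tens C p₀ r) =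
        C.pull (prodMap (aJ P P' T ≫ fst (P.prod P') T) (aJ P P' T ≫ fst (P.prod P') T))
          (tens C p p') *
          C.pull (prodMap (snd P (P'.prod T)) (snd P (P'.prod T)) ≫
            prodMap (snd P' T) (snd P' T)) r := by
      rw [ha, ← C.pull_comp, ← e1, ← e2, C.pull_comp, C.pull_comp, ← map_mul]
      rfl
    have h3 : C.pull (prodMap (aJ P P' T ≫ fst (P.prod P') T) (aJ P P' T ≫ fst (P.prod P') T))
        (tens C p p') = C.pull (prodMap (fst P (P'.prod T)) (fst P (P'.prod T))) p *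
          C.pull (prodMap (snd P (P'.prod T)) (snd P (P'.prod T)) ≫
            prodMap (fst P' T) (fst P' T)) p' := by
      rw [tens, map_mul, ← C.pull_comp, ← C.pull_comp, e3, e4]
    rw [h1, h2, h3, mul_assoc]

variable (H) (B : ∀ X : 𝒱.Obj, ℕ → Submodule ℚ (C.A X))

/-- The vanishing statements in codimension at most `d` for a part of weight `n`. -/
structure PartVan (t d n : ℕ) (P : 𝒱.Obj) (p : C.A (P.prod P)) : Prop where
  lt : ∀ (j : ℤ) (z : C.A P), j ≤ d → 2 * j < n → z ∈ C.gr P j → C.act p z = 0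
  eq : ∀ (j : ℤ) (z : C.A P), j ≤ d → 2 * j = n → z ∈ C.gr P j → H.cl z = 0 → C.act p z = 0
  bot : ∀ (j : ℕ) (z : C.A P), j ≤ d → 2 * j = n + t → z ∈ B P j → C.act p z = 0

variable {H} {B} {t d : ℕ}

lemma PartVan.finish (hB : IsBottom H t B) {n : ℕ} {p : C.A (P.prod P)}
    (h : PartVan H B t d n P p) {j : ℤ} {z : C.A P} (hj : j ≤ d) (h2 : 2 * j ≤ n + t)
    (hz : z ∈ C.gr P j) (hcl : H.cl z = 0) (hzB : ∀ i : ℕ, (i : ℤ) = j → z ∈ B P i) :
    C.act p z = 0 := by
  rcases lt_trichotomy (2 * j) (n : ℤ) with h3 | h3 | h3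
  · exact h.lt j z hj h3 hz
  · exact h.eq j z hj h3 hz hcl
  · have h4 := hB.le
    obtain ⟨i, rfl⟩ := Int.eq_ofNat_of_zero_le (by omega : 0 ≤ j)
    exact h.bot i z (by omega) (by omega) (hzB i rfl)

lemma IsPart.bot (hQ : IsSystem H Q) (hB : IsBottom H t B) (hI : ∀ j ≤ d, Inj Q t B j) {n : ℕ}
    {p : C.A (P.prod P)} (h : IsPart Q n P p) (j : ℕ) (z : C.A P) (hd : j ≤ d)
    (hj : 2 * j = n + t) (hz : z ∈ B P j) : C.act p z = 0 := by
  apply hI j hd n P p (by omega) h
  · apply hB.stable P P j j p _ z hz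
    exact gr_congr (by ring) (h.mem hQ)
  · exact h.act_act hQ z

/-- The image of a class under a part is homologically trivial and lies in `B` (unless the class
is of the critical codimension). -/
lemma IsPart.act_mem (hQ : IsSystem H Q) (hB : IsBottom H t B) {n : ℕ} {p : C.A (P.prod P)}
    (h : IsPart Q n P p) {j : ℤ} {z : C.A P} (hz : z ∈ C.gr P j) (h2 : 2 * j < n + t)
    (hcl : 2 * j = n → H.cl z = 0) :
    H.cl (C.act p z) = 0 ∧ ∀ i : ℕ, (i : ℤ) = j → C.act p z ∈ B P i := by
  have h1 : H.cl (C.act p z) = 0 := by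
    by_cases h3 : 2 * j = n
    · exact act_hom (hcl h3)
    · rw [cl_act H]
      exact h.kills hQ (m := 2 * j) h3 _ (H.cl_mem hz)
  refine ⟨h1, ?_⟩
  rintro i rfl
  rw [← h.act_act hQ z]
  apply hB.kills P P i i p _ _ _ _ h1
  · exact gr_congr (by ring) (h.mem hQ)
  · exact h.kills hQ (by omega)
  · exact act_mem0 C (h.mem hQ) hz

omit hH in
lemma act_wg {M : 𝒱.Obj} (a : M ⟶ X) (w z : C.A M) :
    C.act (wg C a w) z = C.push a (w * z) := by
  have e1 : Obj.lift (𝟙 M) a ≫ fst M X = 𝟙 M := lift_fst _ _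
  have e2 : Obj.lift (𝟙 M) a ≫ snd M X = a := lift_snd _ _
  change C.push (snd M X) (C.push (Obj.lift (𝟙 M) a) w * C.pull (fst M X) z) = _
  rw [← C.proj_right, ← C.push_comp, ← C.pull_comp, e1, e2, C.pull_id]

omit hH in
lemma graph_eq_wg {M : 𝒱.Obj} (a : M ⟶ X) : C.graph a = wg C a 1 := rfl

/-- The vanishing statements for the product of two parts, the weights being less than `N`. -/
theorem tens_part_van (hQ : IsSystem H Q) (hB : IsBottom H t B) {N : ℕ}
    (hV : ∀ n < N, ∀ (P : 𝒱.Obj) (p : C.A (P.prod P)), IsPart Q n P p → PartVan H B t d n P p)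
    {n n' : ℕ} (hn : n + n' < N) {p : C.A (P.prod P)} {P' : 𝒱.Obj} {p' : C.A (P'.prod P')}
    (h : IsPart Q n P p) (h' : IsPart Q n' P' p') {j : ℤ} {η : C.A (P.prod P')}
    (hη : η ∈ C.gr (P.prod P') j) (hj : j ≤ d) :
    (2 * j < n + n' → C.act (tens C p p') η = 0) ∧
    (2 * j ≤ n + n' + t → H.cl η = 0 → (∀ i : ℕ, (i : ℤ) = j → η ∈ B (P.prod P') i) →
      C.act (tens C p p') η = 0) := by
  obtain ⟨P₀, p₀, a, h₀, ha⟩ := h.tens_part h'
  have hd0 := h₀.dim_eq hQ
  have hd1 := h.dim_eq hQ
  have hd2 := h'.dim_eq hQ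
  have hv := hV _ hn P₀ p₀ h₀
  have e0 : Pool.Agent.TH133.tens C p p' =
      C.comp (C.graph a) (C.comp p₀ (tp C (C.graph a))) := by
    have h1 := wg_comp_comp a a 1 1 p₀
    rw [TheoryData.ext, map_one, map_one, mul_one, mul_one] at h1
    rw [ha, ← h1]
    rfl
  have h1 : C.act (C.graph a) η ∈ C.gr P₀ j := by
    rw [C.act_graph]
    have := C.push_mem a hη
    exact gr_congr (by rw [dim_prod, hd0, hd1, hd2]; push_cast; ring) this
  constructor
  · intro h2
    rw [e0, C.act_comp, C.act_comp, hv.lt j _ hj (by push_cast; exact h2) h1,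
      TheoryData.act_map_zero]
  · intro h2 hcl hηB
    rw [e0, C.act_comp, C.act_comp, hv.finish hB hj (by push_cast; exact h2) h1 (act_hom hcl),
      TheoryData.act_map_zero]
    intro i hi
    apply hB.stable (P.prod P') P₀ i i _ _ _ (hηB i hi)
    rw [graph_eq_wg]
    exact gr_congr (by rw [dim_prod, hd0, hd1, hd2]; push_cast; ring)
      (wg_mem a (C.one_mem _))

omit hH in
lemma act_ext_eq_zero_of_ne {a x : C.A X} {b : C.A Y} {c j : ℤ} (ha : a ∈ C.gr X (X.dim - c))
    (hx : x ∈ C.gr X j) (h : j ≠ c) : C.act (C.ext a b) x = 0 :=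
  act_ext_zero_of_lt (C.mul_mem ha hx) (by omega)

lemma act_ext_eq_zero_of_hom {a x : C.A X} {b : C.A Y} {c j : ℤ} (ha : a ∈ C.gr X (X.dim - c))
    (hx : x ∈ C.gr X j) (h : H.cl x = 0) : C.act (C.ext a b) x = 0 := by
  by_cases hj : j = c
  · have h1 : a * x ∈ C.gr X X.dim := gr_congr (by omega) (C.mul_mem ha hx)
    rw [act_ext' (q := 0), zero_smul]
    apply hasDegree_zero_of_cl H h1
    rw [map_mul, h, mul_zero]
  · exact act_ext_eq_zero_of_ne ha hx hj

/-- One factor. -/
theorem van_factor (hQ : IsSystem H Q) (hB : IsBottom H t B) {m : ℕ} {r : C.A (T.prod T)}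
    (hr : Q m T r)
    (hV : ∀ n < m, ∀ (P : 𝒱.Obj) (p : C.A (P.prod P)), IsPart Q n P p → PartVan H B t d n P p)
    {j : ℤ} {z : C.A T} (hj : j ≤ d) (h2 : 2 * j < m + t) (hz : z ∈ C.gr T j)
    (hcl : 2 * j = m → H.cl z = 0) : C.act r z = 0 := by
  have hpart : IsPart Q m T r := IsPart.factor m T r hr
  obtain ⟨hz'c, hz'B⟩ := hpart.act_mem hQ hB hz h2 hcl
  have hz'm : C.act r z ∈ C.gr T j := act_mem0 C (hpart.mem hQ) hz
  have hzr : C.act r (C.act r z) = C.act r z := hpart.act_act hQ z
  set z' := C.act r z with hz'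
  obtain ⟨S, S', hS, hS', hspread⟩ := hQ.slices m T r hr
  have ht := hB.le
  -- the slices vanish
  have hsl : ∀ (Z : 𝒱.Obj) (s : C.A (T.prod Z)), S Z s → C.act s z' = 0 := by
    intro Z s hs
    have h3 : C.act s z' = C.act (C.comp r s) z' := by rw [C.act_comp, hzr]
    have hle : Submodule.span ℚ {c | IsLower C Q m 0 T Z c} ≤
        LinearMap.ker ((actB C (X := T) (Y := Z)).flip z') := by
      rw [Submodule.span_le]
      rintro c hc
      change C.act c z' = 0
      cases hc with
      | part n c P p hp hn hm f g hf hg =>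
        have hf' : f ∈ C.gr (T.prod P) (T.dim + (-(c : ℤ))) := gr_congr (by ring) hf
        rw [C.act_comp, C.act_comp, (hV n hn P p hp).finish hB (j := j - c) (by omega) (by omega)
          (gr_congr (by ring) (act_mem' C hf' hz'm)) (act_hom hz'c), TheoryData.act_map_zero]
        intro i hi
        obtain ⟨l, rfl⟩ := Int.eq_ofNat_of_zero_le (by omega : 0 ≤ j)
        exact hB.stable T P l i f (gr_congr (by omega) hf) _ (hz'B l rfl)
      | zero c hm v u hv hu => exact act_ext_eq_zero_of_hom hv hz'm hz'c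
    rw [h3]
    exact hle (hS Z s hs).2
  obtain ⟨o, ho, hd⟩ : ∃ o ∈ C.gr T T.dim, HasDegree C o 1 := by
    obtain ⟨o, ho, h1, h2⟩ := W492.BB.exists_deg_one C T
    exact ⟨o, ho, fun Y => by rw [one_smul]; exact ⟨h2 Y, h1 Y⟩⟩
  have hζ : C.ext (1 : C.A T) z' ∈ C.gr (T.prod T) j :=
    gr_congr (by ring) (ext_mem' (C.one_mem T) hz'm)
  have hspan := hspread T j (C.ext 1 z') hζ (fun Z s hs => by
    rw [ext_comp, hsl Z s hs, TheoryData.ext_zero_right])
  have hback : C.act r (C.act (C.ext (1 : C.A T) z') o) = z' := by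
    rw [act_ext' (q := 1) (by rwa [one_mul]), one_smul, hzr]
  rw [← hback]
  have hle : Submodule.span ℚ {c | ∃ (Z : 𝒱.Obj) (s : C.A (Z.prod T)) (w : C.A (T.prod Z)),
        S' Z s ∧ C.Deg (j - 1) w ∧ c = C.comp w s} ≤
      LinearMap.ker ((C.actL r) ∘ₗ (actB C (X := T) (Y := T)).flip o) := by
    rw [Submodule.span_le]
    rintro c ⟨Z, s, w, hs, hw, rfl⟩
    change C.act r (C.act (C.comp w s) o) = 0
    rw [C.act_comp, ← C.act_comp s r]
    have hw' : w ∈ C.gr (T.prod Z) (T.dim + (j - 1 - T.dim)) := gr_congr (by ring) hw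
    have hy : C.act w o ∈ C.gr Z (j - 1) := gr_congr (by ring) (act_mem' C hw' ho)
    set y := C.act w o with hyd
    have hle' : Submodule.span ℚ {c | IsLower C Q m 1 Z T c} ≤
        LinearMap.ker ((actB C (X := Z) (Y := T)).flip y) := by
      rw [Submodule.span_le]
      rintro c hc
      change C.act c y = 0
      cases hc with
      | part n c P p hp hn hm f g hf hg =>
        have hf' : f ∈ C.gr (Z.prod P) (Z.dim + (-(c : ℤ))) := gr_congr (by ring) hf
        rw [C.act_comp, C.act_comp, (hV n hn P p hp).lt (j - 1 - c) _ (by omega) (by omega)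
          (gr_congr (by ring) (act_mem' C hf' hy)), TheoryData.act_map_zero]
      | zero c hm v u hv hu => exact act_ext_eq_zero_of_ne hv hy (by omega)
    exact hle' (hS' Z s hs).2
  exact hle hspan

/-- Adding a factor. -/
theorem van_prod (hQ : IsSystem H Q) (hB : IsBottom H t B) {n m : ℕ} {p : C.A (P.prod P)}
    (hp : IsPart Q n P p) {r : C.A (T.prod T)} (hr : Q m T r)
    (hV : ∀ l < n + m, ∀ (P : 𝒱.Obj) (p : C.A (P.prod P)), IsPart Q l P p →
      PartVan H B t d l P p)
    {j : ℤ} {z : C.A (P.prod T)} (hj : j ≤ d) (h2 : 2 * j < (n + m : ℕ) + t)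
    (hz : z ∈ C.gr (P.prod T) j) (hcl : 2 * j = (n + m : ℕ) → H.cl z = 0) :
    C.act (tens C p r) z = 0 := by
  have hpart : IsPart Q (n + m) (P.prod T) (tens C p r) := IsPart.prod n m P T p r hp hr
  obtain ⟨hz'c, hz'B⟩ := hpart.act_mem hQ hB hz h2 hcl
  have hz'm : C.act (tens C p r) z ∈ C.gr (P.prod T) j := act_mem0 C (hpart.mem hQ) hz
  have hzr : C.act (tens C p r) (C.act (tens C p r) z) = C.act (tens C p r) z :=
    hpart.act_act hQ z
  set z' := C.act (tens C p r) z with hz'
  have htr := hQ.self_dual _ _ _ hr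
  have htens : ∀ {Z' : 𝒱.Obj} (q : C.A (Z'.prod Z')) (y : C.A (P.prod Z')),
      C.act (tens C p q) y = C.comp (C.comp p y) q := by
    intro Z' q y
    rw [act_tens C (ch_comm C), hp.tp_eq hQ]
  have hz'e : C.comp (C.comp p z') r = z' := by rw [← htens, hzr]
  have hpp : C.comp p (C.comp p z') = C.comp p z' := by rw [← comp_assoc C, hp.idem hQ]
  have hpz' : C.comp p z' = z' := by
    calc C.comp p z' = C.comp p (C.comp (C.comp p z') r) := by rw [hz'e]
      _ = C.comp (C.comp p (C.comp p z')) r := (comp_assoc C p (C.comp p z') r).symm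
      _ = z' := by rw [hpp, hz'e]
  have hz'r : C.comp z' r = z' := by
    have h0 := hz'e
    rwa [hpz'] at h0
  have hVP := hV n (by have := hQ.pos _ _ _ hr; omega) P p hp
  obtain ⟨S, S', hS, hS', hspread⟩ := hQ.slices m T r hr
  have ht := hB.le
  -- the slices vanish
  have hsl : ∀ (Z : 𝒱.Obj) (s : C.A (T.prod Z)), S Z s → C.comp z' s = 0 := by
    intro Z s hs
    have h3 : C.comp z' s = C.comp z' (C.comp r s) := by rw [← comp_assoc C, hz'r]
    have hle : Submodule.span ℚ {c | IsLower C Q m 0 T Z c} ≤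
        LinearMap.ker (compL C (X := P) (Y := T) (Z := Z) z') := by
      rw [Submodule.span_le]
      rintro c hc
      change C.comp z' c = 0
      cases hc with
      | part l c P' p' hp' hl hm f g hf hg =>
        have hf' : f ∈ C.gr (T.prod P') (T.dim + (-(c : ℤ))) := gr_congr (by ring) hf
        have e1 : C.comp z' (C.comp f (C.comp p' g)) =
            C.comp (C.act (tens C p p') (C.comp z' f)) g := by
          rw [htens, ← comp_assoc C p z' f, hpz']
          simp only [comp_assoc C]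
        have e2 : C.comp z' f = C.act (tens C (dg C P) f) z' := by
          rw [act_tens C (ch_comm C), tp_dg, dg_comp]
        have hηm : C.comp z' f ∈ C.gr (P.prod P') (j - c) := by
          have hz'' : z' ∈ C.gr (P.prod T) (P.dim + (j - P.dim)) := gr_congr (by ring) hz'm
          exact gr_congr (by ring) (comp_mem C hz'' hf')
        have h4 := (tens_part_van hQ hB hV (by omega) hp hp' hηm (by omega)).2 (by omega)
          (by rw [e2]; exact act_hom hz'c) (by
            intro i hi
            obtain ⟨a, rfl⟩ := Int.eq_ofNat_of_zero_le (by omega : 0 ≤ j)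
            rw [e2]
            apply hB.stable _ _ a i _ _ _ (hz'B a rfl)
            have h5 := tens_mem C (dg_mem C P) hf
            exact gr_congr (by rw [dim_prod]; push_cast; omega) h5)
        rw [e1, h4, zero_comp]
      | zero c hm v u hv hu =>
        have e1 : C.act (tp C z') v = C.act p (C.act (tp C z') v) := by
          conv_lhs => rw [← hpz']
          rw [tp_comp C (ch_comm C), hp.tp_eq hQ, C.act_comp]
        have e2 : C.act (tp C z') v = C.act (wg C (fst P T) (C.pull (snd P T) v)) z' := by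
          rw [act_wg, act_tp]
          congr 1
          exact ch_comm C _ _
        have hwm : wg C (fst P T) (C.pull (snd P T) v) ∈
            C.gr ((P.prod T).prod P) ((P.prod T).dim + (-(c : ℤ))) :=
          gr_congr (by rw [dim_prod]; push_cast; ring)
            (wg_mem (fst P T) (C.pull_mem (snd P T) hv))
        have h4 : C.act p (C.act (tp C z') v) = 0 := by
          apply hVP.finish hB (j := j - c) (by omega) (by omega)
          · rw [e2]
            exact gr_congr (by ring) (act_mem' C hwm hz'm)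
          · rw [e2]
            exact act_hom hz'c
          · intro i hi
            obtain ⟨a, rfl⟩ := Int.eq_ofNat_of_zero_le (by omega : 0 ≤ j)
            rw [e2]
            exact hB.stable _ _ a i _ (gr_congr (by omega) hwm) _ (hz'B a rfl)
        rw [comp_ext, e1, h4, TheoryData.ext_zero_left]
    rw [h3]
    exact hle (hS Z s hs).2
  have hspan := hspread P j z' hz'm hsl
  rw [← hzr, htens]
  have hle : Submodule.span ℚ {c | ∃ (Z : 𝒱.Obj) (s : C.A (Z.prod T)) (w : C.A (P.prod Z)),
        S' Z s ∧ C.Deg (j - 1) w ∧ c = C.comp w s} ≤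
      LinearMap.ker (((compL C (X := P) (Y := T) (Z := T)).flip r) ∘ₗ
        (compL C (X := P) (Y := P) (Z := T) p)) := by
    rw [Submodule.span_le]
    rintro c ⟨Z, s, w, hs, hw, rfl⟩
    change C.comp (C.comp p (C.comp w s)) r = 0
    have e0 : C.comp (C.comp p (C.comp w s)) r = C.comp (C.comp p w) (C.comp s r) := by
      simp only [comp_assoc C]
    rw [e0]
    have hle' : Submodule.span ℚ {c | IsLower C Q m 1 Z T c} ≤
        LinearMap.ker (compL C (X := P) (Y := Z) (Z := T) (C.comp p w)) := by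
      rw [Submodule.span_le]
      rintro c hc
      change C.comp (C.comp p w) c = 0
      cases hc with
      | part l c P' p' hp' hl hm f g hf hg =>
        have hf' : f ∈ C.gr (Z.prod P') (Z.dim + (-(c : ℤ))) := gr_congr (by ring) hf
        have e1 : C.comp (C.comp p w) (C.comp f (C.comp p' g)) =
            C.comp (C.act (tens C p p') (C.comp w f)) g := by
          rw [htens]
          simp only [comp_assoc C]
        have hηm : C.comp w f ∈ C.gr (P.prod P') (j - 1 - c) := by
          have hw' : w ∈ C.gr (P.prod Z) (P.dim + (j - 1 - P.dim)) := gr_congr (by ring) hw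
          exact gr_congr (by ring) (comp_mem C hw' hf')
        have h4 := (tens_part_van hQ hB hV (by omega) hp hp' hηm (by omega)).1 (by omega)
        rw [e1, h4, zero_comp]
      | zero c hm v u hv hu =>
        have hw' : tp C w ∈ C.gr (Z.prod P) (Z.dim + (j - 1 - Z.dim)) :=
          gr_congr (by ring) (tp_mem C hw)
        have hx : C.act (tp C w) v ∈ C.gr P (j - 1 - c) :=
          gr_congr (by ring) (act_mem' C hw' hv)
        rw [comp_ext, tp_comp C (ch_comm C), hp.tp_eq hQ, C.act_comp,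
          hVP.lt (j - 1 - c) _ (by omega) (by omega) hx, TheoryData.ext_zero_left]
    exact hle' (hS' Z s hs).2
  exact hle hspan

/-- **The vanishing statements for the products of the pairs of a sliced system.** -/
theorem IsPart.van (hQ : IsSystem H Q) (hB : IsBottom H t B) (hI : ∀ j ≤ d, Inj Q t B j) {n : ℕ}
    {p : C.A (P.prod P)} (h : IsPart Q n P p) : PartVan H B t d n P p := by
  induction n using Nat.strong_induction_on generalizing P with
  | _ n ih =>
    have key : ∀ (j : ℤ) (z : C.A P), j ≤ d → 2 * j < n + t → z ∈ C.gr P j →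
        (2 * j = n → H.cl z = 0) → C.act p z = 0 := by
      intro j z hj h2 hz hcl
      cases h with
      | factor _ T r hr =>
        exact van_factor hQ hB hr (fun l hl P p hp => ih l hl hp) hj h2 hz hcl
      | prod n m P T p r hp hr =>
        exact van_prod hQ hB hp hr (fun l hl P p hp => ih l hl hp) hj h2 hz hcl
    have ht := hB.le
    refine ⟨fun j z hj h2 hz => key j z hj (by omega) hz (by omega),
      fun j z hj h2 hz hcl => ?_, fun j z hj h2 hz => h.bot hQ hB hI j z hj h2 hz⟩
    by_cases h0 : t = 0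
    · obtain ⟨i, rfl⟩ := Int.eq_ofNat_of_zero_le (by omega : 0 ≤ j)
      exact h.bot hQ hB hI i z (by omega) (by omega) (hB.zero h0 P i z hz hcl)
    · exact key j z hj (by omega) hz (fun _ => hcl)

end weil

end Pool.Agent.Y148.SL
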